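import Pool.Agent.helper32.CZero

/-!
# `C(K)` spaces

If the compact Hausdorff space `K` has a nontrivial convergent sequence, then `C(K)` has a
complemented copy of `c₀`.
-/

set_option autoImplicit false

open Set Metric Filter Topology
open scoped ZeroAtInfty

namespace Pool.Agent.helper32

/-- A normed space of which `c₀` is a retract has the property `SB`. -/
theorem SB_of_c0_retract {X : Type*} [NormedAddCommGroup X] [NormedSpace ℝ X]
    (R : X →ₗ[ℝ] C₀(ℕ, ℝ)) (E : C₀(ℕ, ℝ) →ₗ[ℝ] X) (c d : ℝ) (hR : ∀ x, ‖R x‖ ≤ c * ‖x‖)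
    (hE : ∀ x, ‖E x‖ ≤ d * ‖x‖) (h : ∀ a, R (E a) = a) : SB X :=
  SB_of_c0_complemented (ContinuousLinearEquiv.equivOfRightInverse (R.mkContinuous c hR)
    (E.mkContinuous d hE) h)

section

variable {K : Type*} [TopologicalSpace K] [CompactSpace K]

/-- Disjointly supported functions give a copy of `c₀`. -/
theorem summable_bump {g : ℕ → C(K, ℝ)} (h0 : ∀ n x, |g n x| ≤ 1)
    (h1 : ∀ m n, m ≠ n → ∀ x, g m x = 0 ∨ g n x = 0) (a : C₀(ℕ, ℝ)) :
    Summable (fun n => a n • g n) ∧ ∀ C, (∀ n, |a n| ≤ C) → ‖∑' n, a n • g n‖ ≤ C := by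
  classical
  have key : ∀ (t : Finset ℕ) (C : ℝ), 0 ≤ C → (∀ n ∈ t, |a n| ≤ C) →
      ‖∑ n ∈ t, a n • g n‖ ≤ C := by
    intro t C hC ht
    rw [ContinuousMap.norm_le _ hC]
    intro x
    rw [ContinuousMap.coe_sum, Finset.sum_apply, Real.norm_eq_abs]
    by_cases hx : ∃ n ∈ t, g n x ≠ 0
    · obtain ⟨n, hn, hnx⟩ := hx
      rw [Finset.sum_eq_single_of_mem n hn]
      · simp only [ContinuousMap.coe_smul, Pi.smul_apply, smul_eq_mul, abs_mul]
        calc |a n| * |g n x| ≤ C * 1 := by
              gcongr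
              · exact ht n hn
              · exact h0 n x
          _ = C := mul_one C
      · intro m _ hmn
        rcases h1 m n hmn x with h | h
        · simp [h]
        · exact absurd h hnx
    · push Not at hx
      rw [Finset.sum_eq_zero]
      · simpa using hC
      · intro n hn
        simp [hx n hn]
  have hs : Summable (fun n => a n • g n) := by
    rw [summable_iff_vanishing_norm]
    intro ε hε
    have ht := tendsto_c0 a
    rw [Metric.tendsto_atTop] at ht
    obtain ⟨N, hN⟩ := ht (ε / 2) (by positivity)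
    refine ⟨Finset.range N, fun t htd => ?_⟩
    refine lt_of_le_of_lt (key t (ε / 2) (by positivity) ?_) (by linarith)
    intro n hn
    have hnN : N ≤ n := by
      by_contra hcon
      push Not at hcon
      exact (Finset.disjoint_left.1 htd hn) (Finset.mem_range.2 hcon)
    have := hN n hnN
    rw [dist_zero_right, Real.norm_eq_abs] at this
    exact this.le
  refine ⟨hs, ?_⟩
  intro C hC
  have hC0 : 0 ≤ C := (abs_nonneg _).trans (hC 0)
  have h3 : Tendsto (fun t : Finset ℕ => ‖∑ n ∈ t, a n • g n‖) atTop (𝓝 ‖∑' n, a n • g n‖) :=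
    hs.hasSum.norm
  exact le_of_tendsto' h3 fun t => key t C hC0 fun n _ => hC n

/-- Bump functions give a complemented copy of `c₀`. -/
theorem SB_of_bumps {g : ℕ → C(K, ℝ)} (h0 : ∀ n x, |g n x| ≤ 1)
    (h1 : ∀ m n, m ≠ n → ∀ x, g m x = 0 ∨ g n x = 0) {s : ℕ → K} {k : K}
    (hs : Tendsto s atTop (𝓝 k)) (h2 : ∀ n, g n (s n) = 1) (h3 : ∀ n, g n k = 0) :
    SB C(K, ℝ) := by
  let R : C(K, ℝ) →ₗ[ℝ] C₀(ℕ, ℝ) :=
    { toFun := fun f => mkC0 (fun n => f (s n) - f k) (by
        have := (f.continuous.tendsto k).comp hs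
        have h5 := this.sub_const (f k)
        simpa using h5)
      map_add' := fun f f' => by
        ext n; simp only [mkC0_apply, ContinuousMap.add_apply, ZeroAtInftyContinuousMap.add_apply]
        ring
      map_smul' := fun r f => by
        ext n; simp only [mkC0_apply, ContinuousMap.smul_apply,
          ZeroAtInftyContinuousMap.smul_apply, smul_eq_mul, RingHom.id_apply]
        ring }
  have hR : ∀ f n, R f n = f (s n) - f k := fun f n => rfl
  let E : C₀(ℕ, ℝ) →ₗ[ℝ] C(K, ℝ) :=
    { toFun := fun a => ∑' n, a n • g n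
      map_add' := fun a b => by
        simp only [ZeroAtInftyContinuousMap.add_apply, add_smul]
        exact (summable_bump h0 h1 a).1.tsum_add (summable_bump h0 h1 b).1
      map_smul' := fun r a => by
        simp only [ZeroAtInftyContinuousMap.smul_apply, smul_eq_mul, RingHom.id_apply, mul_smul]
        exact (summable_bump h0 h1 a).1.tsum_const_smul r }
  have hE : ∀ a x, E a x = ∑' n, a n * g n x := by
    intro a x
    have h5 := (summable_bump h0 h1 a).1.hasSum.mapL (ContinuousMap.evalCLM ℝ x)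
    exact h5.tsum_eq.symm
  refine SB_of_c0_retract R E 2 1 ?_ ?_ ?_
  · intro f
    apply norm_c0_le (by positivity)
    intro n
    have e1 := f.norm_coe_le_norm (s n)
    have e2 := f.norm_coe_le_norm k
    simp only [Real.norm_eq_abs] at e1 e2
    have e3 := abs_sub (f (s n)) (f k)
    rw [hR]
    linarith
  · intro a
    rw [one_mul]
    exact (summable_bump h0 h1 a).2 ‖a‖ (abs_le_norm_c0 a)
  · intro a
    ext n
    rw [hR, hE, hE]
    have e1 : ∑' m, a m * g m k = 0 := by simp [h3]
    have e2 : ∑' m, a m * g m (s n) = a n := by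
      rw [tsum_eq_single n]
      · rw [h2, mul_one]
      · intro m hmn
        rcases h1 m n hmn (s n) with h | h
        · rw [h, mul_zero]
        · rw [h2] at h
          exact absurd h one_ne_zero
    rw [e1, e2, sub_zero]

end

/-- A nontrivial convergent sequence gives bump functions. -/
theorem exists_bumps {K : Type*} [TopologicalSpace K] [CompactSpace K] [T2Space K] {s : ℕ → K}
    {k : K} (hs : Tendsto s atTop (𝓝 k)) (hk : ∀ n, s n ≠ k) :
    ∃ (g : ℕ → C(K, ℝ)) (φ : ℕ → ℕ), StrictMono φ ∧ (∀ n x, |g n x| ≤ 1) ∧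
      (∀ m n, m ≠ n → ∀ x, g m x = 0 ∨ g n x = 0) ∧ (∀ n, g n (s (φ n)) = 1) ∧
      (∀ n, g n k = 0) := by
  -- a function vanishing at `k` and positive on the sequence
  have h1 : ∀ n, ∃ f : C(K, ℝ), f k = 0 ∧ f (s n) = 1 ∧ ∀ x, f x ∈ Icc (0:ℝ) 1 := by
    intro n
    obtain ⟨f, hf0, hf1, hf2⟩ := exists_continuous_zero_one_of_isClosed
      (isClosed_singleton (x := k)) (isClosed_singleton (x := s n)) (by
        rw [Set.disjoint_singleton]
        exact (hk n).symm)
    exact ⟨f, hf0 (mem_singleton _), hf1 (mem_singleton _), hf2⟩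
  choose f hf0 hf1 hf2 using h1
  have hsum : ∀ x, Summable fun n : ℕ => (1/2 : ℝ) ^ n * f n x := by
    intro x
    refine Summable.of_nonneg_of_le (fun n => ?_) (fun n => ?_) summable_geometric_two
    · have := (hf2 n x).1
      positivity
    · have := (hf2 n x).2
      have h5 : (0:ℝ) ≤ (1/2) ^ n := by positivity
      calc (1/2 : ℝ) ^ n * f n x ≤ (1/2) ^ n * 1 := by gcongr
        _ = (1/2) ^ n := mul_one _
  let h : C(K, ℝ) := ⟨fun x => ∑' n : ℕ, (1/2 : ℝ) ^ n * f n x, by
    apply continuous_tsum (u := fun n : ℕ => (1/2 : ℝ) ^ n)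
    · intro n; fun_prop
    · exact summable_geometric_two
    · intro n x
      rw [Real.norm_eq_abs, abs_mul, abs_of_pos (by positivity : (0:ℝ) < (1/2) ^ n),
        abs_of_nonneg (hf2 n x).1]
      have := (hf2 n x).2
      calc (1/2 : ℝ) ^ n * f n x ≤ (1/2) ^ n * 1 := by gcongr
        _ = (1/2) ^ n := mul_one _⟩
  have hh : ∀ x, h x = ∑' n : ℕ, (1/2 : ℝ) ^ n * f n x := fun _ => rfl
  have hk0 : h k = 0 := by
    rw [hh]; simp [hf0]
  have hpos : ∀ n, 0 < h (s n) := by
    intro n
    rw [hh]
    refine (hsum (s n)).tsum_pos (fun m => ?_) n ?_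
    · have := (hf2 m (s n)).1
      positivity
    · rw [hf1]; positivity
  have hlim : Tendsto (fun n => h (s n)) atTop (𝓝 0) := by
    have := (h.continuous.tendsto k).comp hs
    rw [hk0] at this
    exact this
  have hnext : ∀ n, ∃ m, n < m ∧ h (s m) ≤ h (s n) / 4 := by
    intro n
    have h4 : 0 < h (s n) / 4 := by have := hpos n; positivity
    obtain ⟨m, hm1, hm2⟩ := ((hlim.eventually (gt_mem_nhds h4)).and (eventually_gt_atTop n)).exists
    exact ⟨m, hm2, hm1.le⟩
  choose nx hnx1 hnx2 using hnext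
  let φ : ℕ → ℕ := fun j => nx^[j] 0
  have hφ : ∀ j, φ (j + 1) = nx (φ j) := fun j => Function.iterate_succ_apply' nx j 0
  have hmono : StrictMono φ := strictMono_nat_of_lt_succ fun j => by
    rw [hφ]; exact hnx1 _
  set t : ℕ → ℝ := fun j => h (s (φ j)) with ht
  have htpos : ∀ j, 0 < t j := fun j => hpos _
  have htsucc : ∀ j, t (j + 1) ≤ t j / 4 := by
    intro j
    simp only [ht, hφ]
    exact hnx2 _
  have htlt : ∀ m n, m < n → t n ≤ t m / 4 := by
    intro m n hmn
    induction n with
    | zero => omega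
    | succ n ih =>
      rcases Nat.lt_succ_iff_lt_or_eq.1 hmn with h5 | h5
      · have := ih h5
        have h6 := htsucc n
        have h7 := htpos n
        linarith
      · rw [h5]; exact htsucc n
  let g : ℕ → C(K, ℝ) := fun j => ⟨fun x => max 0 (1 - |h x - t j| * (4 / t j)), by fun_prop⟩
  have hg : ∀ j x, g j x = max 0 (1 - |h x - t j| * (4 / t j)) := fun _ _ => rfl
  have hsupp : ∀ j x, g j x ≠ 0 → 3 / 4 * t j < h x ∧ h x < 5 / 4 * t j := by
    intro j x hne
    have h5 : |h x - t j| < t j / 4 := by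
      by_contra hcon
      push Not at hcon
      apply hne
      rw [hg]
      apply max_eq_left
      have h6 : 1 ≤ |h x - t j| * (4 / t j) := by
        have h7 := htpos j
        calc (1:ℝ) = t j / 4 * (4 / t j) := by field_simp
          _ ≤ _ := by gcongr
      linarith
    rw [abs_lt] at h5
    constructor <;> linarith [h5.1, h5.2]
  have hdisj : ∀ m n, m < n → ∀ x, g m x = 0 ∨ g n x = 0 := by
    intro m n hmn x
    by_contra hcon
    push Not at hcon
    have h5 := hsupp m x hcon.1
    have h6 := hsupp n x hcon.2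
    have h7 := htlt m n hmn
    have h8 := htpos m
    linarith [h5.1, h6.2]
  refine ⟨g, φ, hmono, ?_, ?_, ?_, ?_⟩
  · intro n x
    rw [hg, abs_of_nonneg (le_max_left _ _)]
    apply max_le zero_le_one
    have h5 := htpos n
    have : 0 ≤ |h x - t n| * (4 / t n) := by positivity
    linarith
  · intro m n hmn x
    rcases lt_or_gt_of_ne hmn with h5 | h5
    · exact hdisj m n h5 x
    · exact (hdisj n m h5 x).symm
  · intro n
    rw [hg]
    simp [ht]
  · intro n
    rw [hg, hk0, zero_sub, abs_neg, abs_of_pos (htpos n)]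
    have h5 := htpos n
    have : t n * (4 / t n) = 4 := by field_simp
    rw [this]
    norm_num

/-- `C(K)`, for `K` with a nontrivial convergent sequence, has the property `SB`. -/
theorem SB_CK {K : Type*} [TopologicalSpace K] [CompactSpace K] [T2Space K] {s : ℕ → K}
    {k : K} (hs : Tendsto s atTop (𝓝 k)) (hk : ∀ n, s n ≠ k) : SB C(K, ℝ) := by
  obtain ⟨g, φ, hφ, h0, h1, h2, h3⟩ := exists_bumps hs hk
  exact SB_of_bumps h0 h1 (hs.comp hφ.tendsto_atTop) h2 h3

end Pool.Agent.helper32
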