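import Pool.Agent.helper32.Path.Bilip

/-!
# The Mazur map between the unit spheres of `L_p` and `L_1`
-/

set_option autoImplicit false

open Set MeasureTheory Filter Topology Metric
open scoped ENNReal

namespace Pool.Agent.helper32.Mazur

/-- the signed power -/
noncomputable def φ (θ a : ℝ) : ℝ := (max a 0) ^ θ - (max (-a) 0) ^ θ

lemma φ_of_nonneg {θ a : ℝ} (hθ : 0 < θ) (ha : 0 ≤ a) : φ θ a = a ^ θ := by
  rw [φ, max_eq_left ha, max_eq_right (by linarith), Real.zero_rpow hθ.ne', sub_zero]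

lemma φ_neg (θ a : ℝ) : φ θ (-a) = -φ θ a := by
  rw [φ, φ, neg_neg]; ring

lemma abs_φ {θ : ℝ} (hθ : 0 < θ) (a : ℝ) : |φ θ a| = |a| ^ θ := by
  rcases le_total 0 a with h | h
  · rw [φ_of_nonneg hθ h, abs_of_nonneg h, abs_of_nonneg (by positivity)]
  · have h' : 0 ≤ -a := by linarith
    rw [← neg_neg a, φ_neg, abs_neg, φ_of_nonneg hθ h', abs_neg, abs_of_nonneg h',
      abs_of_nonneg (by positivity)]

lemma φ_φ {θ η : ℝ} (hθ : 0 < θ) (hη : 0 < η) (h : θ * η = 1) (a : ℝ) : φ η (φ θ a) = a := by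
  have key : ∀ a : ℝ, 0 ≤ a → φ η (φ θ a) = a := by
    intro a ha
    rw [φ_of_nonneg hθ ha, φ_of_nonneg hη (by positivity), ← Real.rpow_mul ha, h, Real.rpow_one]
  rcases le_total 0 a with h | h
  · exact key a h
  · have h' : 0 ≤ -a := by linarith
    have := key (-a) h'
    rw [φ_neg, φ_neg] at this
    linarith

lemma continuous_φ {θ : ℝ} (hθ : 0 < θ) : Continuous (φ θ) := by
  unfold φ
  apply Continuous.sub
  · exact (continuous_id.max continuous_const).rpow_const fun _ => Or.inr hθ.le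
  · exact (continuous_neg.max continuous_const).rpow_const fun _ => Or.inr hθ.le

/-- For exponents at most one. -/
lemma φ_sub_le_small {θ : ℝ} (hθ : 0 < θ) (hθ1 : θ ≤ 1) (a b : ℝ) :
    |φ θ a - φ θ b| ≤ 2 * |a - b| ^ θ := by
  -- same sign
  have same : ∀ x y : ℝ, 0 ≤ x → 0 ≤ y → |φ θ x - φ θ y| ≤ |x - y| ^ θ := by
    have aux : ∀ x y : ℝ, 0 ≤ y → y ≤ x → |φ θ x - φ θ y| ≤ |x - y| ^ θ := by
      intro x y hy hyx
      have hx : 0 ≤ x := hy.trans hyx
      rw [φ_of_nonneg hθ hx, φ_of_nonneg hθ hy, abs_of_nonneg (by linarith : 0 ≤ x - y),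
        abs_of_nonneg (by
          have := Real.rpow_le_rpow hy hyx hθ.le
          linarith)]
      have := Real.rpow_add_le_add_rpow hy (by linarith : 0 ≤ x - y) hθ.le hθ1
      rw [add_sub_cancel] at this
      linarith
    intro x y hx hy
    rcases le_total y x with h | h
    · exact aux x y hy h
    · rw [abs_sub_comm, abs_sub_comm x y]
      exact aux y x hx h
  -- opposite signs
  have opp : ∀ x y : ℝ, 0 ≤ x → 0 ≤ y → |φ θ x - φ θ (-y)| ≤ 2 * |x - -y| ^ θ := by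
    intro x y hx hy
    rw [φ_neg, φ_of_nonneg hθ hx, φ_of_nonneg hθ hy, sub_neg_eq_add, sub_neg_eq_add,
      abs_of_nonneg (by positivity), abs_of_nonneg (by positivity)]
    have h1 := Real.rpow_le_rpow hx (by linarith : x ≤ x + y) hθ.le
    have h2 := Real.rpow_le_rpow hy (by linarith : y ≤ x + y) hθ.le
    linarith
  have hpos : 0 ≤ |a - b| ^ θ := by positivity
  rcases le_total 0 a with ha | ha <;> rcases le_total 0 b with hb | hb
  · linarith [same a b ha hb]
  · have := opp a (-b) ha (by linarith)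
    rwa [neg_neg] at this
  · have := opp b (-a) hb (by linarith)
    rw [neg_neg] at this
    rwa [abs_sub_comm, abs_sub_comm a b]
  · have := same (-a) (-b) (by linarith) (by linarith)
    rw [φ_neg, φ_neg] at this
    have e1 : -φ θ a - -φ θ b = -(φ θ a - φ θ b) := by ring
    have e2 : -a - -b = -(a - b) := by ring
    rw [e1, e2, abs_neg, abs_neg] at this
    linarith

/-- For exponents at least one. -/
lemma φ_sub_le_large {q : ℝ} (hq : 1 ≤ q) (a b : ℝ) :
    |φ q a - φ q b| ≤ q * (|a - b| * (|a| + |b|) ^ (q - 1)) := by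
  have hq0 : 0 < q := by linarith
  have same : ∀ x y : ℝ, 0 ≤ x → 0 ≤ y →
      |φ q x - φ q y| ≤ q * (|x - y| * (|x| + |y|) ^ (q - 1)) := by
    have aux : ∀ x y : ℝ, 0 ≤ y → y ≤ x →
        |φ q x - φ q y| ≤ q * (|x - y| * (|x| + |y|) ^ (q - 1)) := by
      intro x y hy hyx
      have hx : 0 ≤ x := hy.trans hyx
      rw [φ_of_nonneg hq0 hx, φ_of_nonneg hq0 hy, abs_of_nonneg (by linarith : 0 ≤ x - y),
        abs_of_nonneg (by
          have := Real.rpow_le_rpow hy hyx hq0.le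
          linarith), abs_of_nonneg hx, abs_of_nonneg hy]
      rcases hx.eq_or_lt with hx0 | hx0
      · have hy0 : y = 0 := by linarith
        rw [← hx0, hy0]; simp
      · -- Bernoulli
        have h1 : 1 + q * (y / x - 1) ≤ (1 + (y / x - 1)) ^ q := by
          apply one_add_mul_self_le_rpow_one_add _ hq
          have : 0 ≤ y / x := by positivity
          linarith
        rw [add_sub_cancel, Real.div_rpow hy hx] at h1
        have h2 : 0 < x ^ q := by positivity
        rw [le_div_iff₀ h2] at h1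
        have h3 : x ^ q = x * x ^ (q - 1) := by
          rw [Real.rpow_sub_one hx0.ne']; field_simp
        have h4 : x ^ (q - 1) ≤ (x + y) ^ (q - 1) :=
          Real.rpow_le_rpow hx (by linarith) (by linarith)
        have h5 : x ^ q - y ^ q ≤ q * ((x - y) * x ^ (q - 1)) := by
          have h6 : (1 + q * (y / x - 1)) * x ^ q = x ^ q - q * ((x - y) * x ^ (q - 1)) := by
            rw [h3]; field_simp; ring
          linarith
        refine h5.trans ?_
        have : 0 ≤ x - y := by linarith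
        gcongr
    intro x y hx hy
    rcases le_total y x with h | h
    · exact aux x y hy h
    · rw [abs_sub_comm, abs_sub_comm x y, add_comm |x|]
      exact aux y x hx h
  have opp : ∀ x y : ℝ, 0 ≤ x → 0 ≤ y →
      |φ q x - φ q (-y)| ≤ q * (|x - -y| * (|x| + |-y|) ^ (q - 1)) := by
    intro x y hx hy
    rw [φ_neg, φ_of_nonneg hq0 hx, φ_of_nonneg hq0 hy, sub_neg_eq_add, sub_neg_eq_add,
      abs_of_nonneg (by positivity), abs_of_nonneg (by positivity), abs_neg, abs_of_nonneg hx,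
      abs_of_nonneg hy]
    rcases (add_nonneg hx hy).eq_or_lt with h0 | h0
    · have hx0 : x = 0 := by linarith
      have hy0 : y = 0 := by linarith
      rw [hx0, hy0, Real.zero_rpow hq0.ne']; simp
    · have h1 : x ^ q + y ^ q ≤ (x + y) ^ q := Real.add_rpow_le_rpow_add hx hy hq
      have h3 : (x + y) ^ q = (x + y) * (x + y) ^ (q - 1) := by
        rw [Real.rpow_sub_one h0.ne']; field_simp
      have h4 : 0 ≤ (x + y) * (x + y) ^ (q - 1) := by positivity
      rw [h3] at h1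
      nlinarith
  rcases le_total 0 a with ha | ha <;> rcases le_total 0 b with hb | hb
  · exact same a b ha hb
  · have := opp a (-b) ha (by linarith)
    rwa [neg_neg] at this
  · have := opp b (-a) hb (by linarith)
    rw [neg_neg] at this
    rw [abs_sub_comm, abs_sub_comm a b, add_comm |a|]
    exact this
  · have := same (-a) (-b) (by linarith) (by linarith)
    rw [φ_neg, φ_neg] at this
    have e1 : -φ q a - -φ q b = -(φ q a - φ q b) := by ring
    have e2 : -a - -b = -(a - b) := by ring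
    rw [e1, e2, abs_neg, abs_neg, abs_neg, abs_neg] at this
    exact this

/-- splitting of the product, a form of Young's inequality -/
lemma split {q : ℝ} (hq : 1 ≤ q) {ε : ℝ} (hε : 0 < ε) {x y : ℝ} (hx : 0 ≤ x) (hy : 0 ≤ y) :
    x * y ^ (q - 1) ≤ ε * y ^ q + (ε⁻¹) ^ (q - 1) * x ^ q := by
  have hq0 : 0 < q := by linarith
  have hpow : ∀ z : ℝ, 0 ≤ z → z * z ^ (q - 1) = z ^ q := by
    intro z hz
    rcases hz.eq_or_lt with h | h
    · rw [← h, Real.zero_rpow hq0.ne', zero_mul]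
    · rw [Real.rpow_sub_one h.ne']; field_simp
  rcases le_total x (ε * y) with h | h
  · have h1 : x * y ^ (q - 1) ≤ ε * y * y ^ (q - 1) := by gcongr
    have h2 : ε * y * y ^ (q - 1) = ε * y ^ q := by rw [mul_assoc, hpow y hy]
    have h3 : 0 ≤ (ε⁻¹) ^ (q - 1) * x ^ q := by positivity
    linarith
  · have h1 : y ≤ ε⁻¹ * x := by
      rw [inv_mul_eq_div, le_div_iff₀ hε, mul_comm]; exact h
    have h2 : y ^ (q - 1) ≤ (ε⁻¹ * x) ^ (q - 1) := Real.rpow_le_rpow hy h1 (by linarith)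
    rw [Real.mul_rpow (by positivity) hx] at h2
    have h3 : x * y ^ (q - 1) ≤ x * ((ε⁻¹) ^ (q - 1) * x ^ (q - 1)) := by gcongr
    have h4 : x * ((ε⁻¹) ^ (q - 1) * x ^ (q - 1)) = (ε⁻¹) ^ (q - 1) * x ^ q := by
      rw [← hpow x hx]; ring
    have h5 : 0 ≤ ε * y ^ q := by positivity
    linarith

lemma add_rpow_le {q : ℝ} (hq : 1 ≤ q) {x y : ℝ} (hx : 0 ≤ x) (hy : 0 ≤ y) :
    (x + y) ^ q ≤ 2 ^ q * (x ^ q + y ^ q) := by
  have hq0 : 0 ≤ q := by linarith
  have h1 : x + y ≤ 2 * max x y := by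
    rw [two_mul]; exact add_le_add (le_max_left _ _) (le_max_right _ _)
  have h2 : (x + y) ^ q ≤ (2 * max x y) ^ q := Real.rpow_le_rpow (by positivity) h1 hq0
  rw [Real.mul_rpow (by norm_num) (le_max_of_le_left hx)] at h2
  have h3 : (max x y) ^ q ≤ x ^ q + y ^ q := by
    rcases le_total x y with h | h
    · rw [max_eq_right h]
      have : 0 ≤ x ^ q := by positivity
      linarith
    · rw [max_eq_left h]
      have : 0 ≤ y ^ q := by positivity
      linarith
  refine h2.trans ?_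
  gcongr

variable {Ω : Type*} [MeasurableSpace Ω] {μ : Measure Ω} {p : ℝ≥0∞}

lemma toReal_ge_one (hp1 : 1 ≤ p) (hp : p ≠ ⊤) : 1 ≤ p.toReal := by
  have := (ENNReal.toReal_le_toReal ENNReal.one_ne_top hp).2 hp1
  simpa using this

lemma norm_rpow (hp1 : 1 ≤ p) (hp : p ≠ ⊤) (f : Lp ℝ p μ) :
    ‖f‖ ^ p.toReal = ∫ x, |f x| ^ p.toReal ∂μ := by
  have hq := toReal_ge_one hp1 hp
  have hp0 : p ≠ 0 := fun h => by rw [h] at hp1; simp at hp1
  have h1 := (Lp.memLp f).eLpNorm_eq_integral_rpow_norm hp0 hp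
  have hI : 0 ≤ ∫ x, ‖f x‖ ^ p.toReal ∂μ := integral_nonneg fun x => by positivity
  rw [Lp.norm_def, h1, ENNReal.toReal_ofReal (by positivity), ← Real.rpow_mul hI,
    inv_mul_cancel₀ (by linarith), Real.rpow_one]
  rfl

lemma integrable_rpow (hp1 : 1 ≤ p) (hp : p ≠ ⊤) (f : Lp ℝ p μ) :
    Integrable (fun x => |f x| ^ p.toReal) μ := by
  have hp0 : p ≠ 0 := fun h => by rw [h] at hp1; simp at hp1
  exact (Lp.memLp f).integrable_norm_rpow hp0 hp

lemma memLp_one (hp1 : 1 ≤ p) (hp : p ≠ ⊤) (f : Lp ℝ p μ) :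
    MemLp (fun x => φ p.toReal (f x)) 1 μ := by
  have hq := toReal_ge_one hp1 hp
  rw [memLp_one_iff_integrable]
  refine (integrable_rpow hp1 hp f).mono'
    ((continuous_φ (by linarith)).comp_aestronglyMeasurable (Lp.aestronglyMeasurable f)) ?_
  refine Eventually.of_forall fun x => ?_
  rw [Real.norm_eq_abs, abs_φ (by linarith)]

lemma memLp_p (hp1 : 1 ≤ p) (hp : p ≠ ⊤) (g : Lp ℝ 1 μ) :
    MemLp (fun x => φ (p.toReal)⁻¹ (g x)) p μ := by
  have hq := toReal_ge_one hp1 hp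
  have hq0 : 0 < p.toReal := by linarith
  have hp0 : p ≠ 0 := fun h => by rw [h] at hp1; simp at hp1
  have hm : AEStronglyMeasurable (fun x => φ (p.toReal)⁻¹ (g x)) μ :=
    (continuous_φ (by positivity)).comp_aestronglyMeasurable (Lp.aestronglyMeasurable g)
  rw [← integrable_norm_rpow_iff hm hp0 hp]
  refine (L1.integrable_coeFn g).abs.congr (Eventually.of_forall fun x => ?_)
  simp only
  rw [Real.norm_eq_abs, abs_φ (by positivity), ← Real.rpow_mul (abs_nonneg _),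
    inv_mul_cancel₀ hq0.ne', Real.rpow_one]

/-- the Mazur map -/
noncomputable def M (hp1 : 1 ≤ p) (hp : p ≠ ⊤) (f : Lp ℝ p μ) : Lp ℝ 1 μ := (memLp_one hp1 hp f).toLp

/-- its inverse -/
noncomputable def N (hp1 : 1 ≤ p) (hp : p ≠ ⊤) (g : Lp ℝ 1 μ) : Lp ℝ p μ := (memLp_p hp1 hp g).toLp

lemma coe_M (hp1 : 1 ≤ p) (hp : p ≠ ⊤) (f : Lp ℝ p μ) :
    M hp1 hp f =ᵐ[μ] fun x => φ p.toReal (f x) := (memLp_one hp1 hp f).coeFn_toLp

lemma coe_N (hp1 : 1 ≤ p) (hp : p ≠ ⊤) (g : Lp ℝ 1 μ) :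
    N hp1 hp g =ᵐ[μ] fun x => φ (p.toReal)⁻¹ (g x) := (memLp_p hp1 hp g).coeFn_toLp

lemma N_M (hp1 : 1 ≤ p) (hp : p ≠ ⊤) (f : Lp ℝ p μ) : N hp1 hp (M hp1 hp f) = f := by
  have hq := toReal_ge_one hp1 hp
  apply Lp.ext
  filter_upwards [coe_N hp1 hp (M hp1 hp f), coe_M hp1 hp f] with x h1 h2
  rw [h1, h2, φ_φ (by linarith) (by positivity) (mul_inv_cancel₀ (by linarith))]

lemma M_N (hp1 : 1 ≤ p) (hp : p ≠ ⊤) (g : Lp ℝ 1 μ) : M hp1 hp (N hp1 hp g) = g := by
  have hq := toReal_ge_one hp1 hp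
  apply Lp.ext
  filter_upwards [coe_M hp1 hp (N hp1 hp g), coe_N hp1 hp g] with x h1 h2
  rw [h1, h2, φ_φ (by positivity) (by linarith) (inv_mul_cancel₀ (by linarith))]

lemma norm_L1 (g : Lp ℝ 1 μ) : ‖g‖ = ∫ x, |g x| ∂μ := by
  rw [L1.norm_eq_integral_norm]; rfl

lemma norm_M (hp1 : 1 ≤ p) (hp : p ≠ ⊤) (f : Lp ℝ p μ) : ‖M hp1 hp f‖ = ‖f‖ ^ p.toReal := by
  have hq := toReal_ge_one hp1 hp
  rw [norm_L1, norm_rpow hp1 hp]
  apply integral_congr_ae
  filter_upwards [coe_M hp1 hp f] with x h1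
  rw [h1, abs_φ (by linarith)]

/-- uniform estimate for the Mazur map -/
lemma norm_M_sub (hp1 : 1 ≤ p) (hp : p ≠ ⊤) (f g : Lp ℝ p μ) {ε : ℝ} (hε : 0 < ε) :
    ‖M hp1 hp f - M hp1 hp g‖ ≤ p.toReal * (ε * (2 ^ p.toReal *
      (‖f‖ ^ p.toReal + ‖g‖ ^ p.toReal)) + (ε⁻¹) ^ (p.toReal - 1) * ‖f - g‖ ^ p.toReal) := by
  have hq := toReal_ge_one hp1 hp
  set q := p.toReal with hqdef
  rw [norm_L1]
  have hsub : Integrable (fun x => |f x - g x| ^ q) μ := by
    refine (integrable_rpow hp1 hp (f - g)).congr ?_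
    filter_upwards [Lp.coeFn_sub f g] with x hx
    rw [hx]; rfl
  have hsubn : ‖f - g‖ ^ q = ∫ x, |f x - g x| ^ q ∂μ := by
    rw [norm_rpow hp1 hp]
    apply integral_congr_ae
    filter_upwards [Lp.coeFn_sub f g] with x hx
    rw [hx]; rfl
  have hint : Integrable (fun x => q * (ε * (2 ^ q * (|f x| ^ q + |g x| ^ q)) +
      (ε⁻¹) ^ (q - 1) * |f x - g x| ^ q)) μ :=
    (((((integrable_rpow hp1 hp f).add (integrable_rpow hp1 hp g)).const_mul _).const_mul _).add
      (hsub.const_mul _)).const_mul _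
  calc ∫ x, |(M hp1 hp f - M hp1 hp g : Lp ℝ 1 μ) x| ∂μ
      ≤ ∫ x, q * (ε * (2 ^ q * (|f x| ^ q + |g x| ^ q)) +
        (ε⁻¹) ^ (q - 1) * |f x - g x| ^ q) ∂μ := by
        apply integral_mono_ae (L1.integrable_coeFn _).abs hint
        filter_upwards [Lp.coeFn_sub (M hp1 hp f) (M hp1 hp g), coe_M hp1 hp f, coe_M hp1 hp g]
          with x h1 h2 h3
        rw [h1, Pi.sub_apply, h2, h3]
        refine (φ_sub_le_large hq (f x) (g x)).trans ?_
        have h4 := split hq hε (abs_nonneg (f x - g x))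
          (add_nonneg (abs_nonneg (f x)) (abs_nonneg (g x)))
        have h5 := add_rpow_le hq (abs_nonneg (f x)) (abs_nonneg (g x))
        have h6 : ε * (|f x| + |g x|) ^ q ≤ ε * (2 ^ q * (|f x| ^ q + |g x| ^ q)) := by gcongr
        have h7 : |f x - g x| * (|f x| + |g x|) ^ (q - 1) ≤
          ε * (2 ^ q * (|f x| ^ q + |g x| ^ q)) + (ε⁻¹) ^ (q - 1) * |f x - g x| ^ q := by linarith
        have hq0 : 0 ≤ q := by linarith
        gcongr
    _ = _ := by
        rw [integral_const_mul, integral_add, integral_const_mul, integral_const_mul,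
          integral_const_mul, integral_add, norm_rpow hp1 hp, norm_rpow hp1 hp, hsubn]
        · exact integrable_rpow hp1 hp f
        · exact integrable_rpow hp1 hp g
        · exact (((integrable_rpow hp1 hp f).add (integrable_rpow hp1 hp g)).const_mul _).const_mul _
        · exact hsub.const_mul _

/-- uniform estimate for the inverse -/
lemma norm_N_sub (hp1 : 1 ≤ p) (hp : p ≠ ⊤) (f g : Lp ℝ 1 μ) :
    ‖N hp1 hp f - N hp1 hp g‖ ^ p.toReal ≤ 2 ^ p.toReal * ‖f - g‖ := by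
  have hq := toReal_ge_one hp1 hp
  have hq0 : 0 < p.toReal := by linarith
  rw [norm_rpow hp1 hp, norm_L1, ← integral_const_mul]
  apply integral_mono_ae (integrable_rpow hp1 hp _) ((L1.integrable_coeFn _).abs.const_mul _)
  filter_upwards [Lp.coeFn_sub (N hp1 hp f) (N hp1 hp g), coe_N hp1 hp f, coe_N hp1 hp g,
    Lp.coeFn_sub f g] with x h1 h2 h3 h4
  rw [h1, h4, Pi.sub_apply, Pi.sub_apply, h2, h3]
  have h5 := φ_sub_le_small (θ := (p.toReal)⁻¹) (by positivity) (inv_le_one_of_one_le₀ hq) (f x) (g x)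
  calc |φ (p.toReal)⁻¹ (f x) - φ (p.toReal)⁻¹ (g x)| ^ p.toReal
      ≤ (2 * |f x - g x| ^ (p.toReal)⁻¹) ^ p.toReal := Real.rpow_le_rpow (abs_nonneg _) h5 hq0.le
    _ = 2 ^ p.toReal * |f x - g x| := by
        rw [Real.mul_rpow (by norm_num) (by positivity), ← Real.rpow_mul (abs_nonneg _),
          inv_mul_cancel₀ hq0.ne', Real.rpow_one]

/-- `L_p` and `L_1` are equivalent cones. -/
theorem mazur [Fact (1 ≤ p)] (hp : p ≠ ⊤) :
    ConeEquiv (univ : Set (Lp ℝ p μ)) (univ : Set (Lp ℝ 1 μ)) := by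
  have hp1 : 1 ≤ p := Fact.out
  have hq := toReal_ge_one hp1 hp
  have hq0 : 0 < p.toReal := by linarith
  apply ConeEquiv.ofSphere (fun _ _ _ _ => mem_univ _) (fun _ _ _ _ => mem_univ _)
    (mem_univ _) (mem_univ _)
  refine ⟨M hp1 hp, N hp1 hp, ?_, ?_, ?_, ?_, fun x _ => N_M hp1 hp x, fun x _ => M_N hp1 hp x⟩
  · rintro f ⟨-, hf⟩
    refine ⟨mem_univ _, ?_⟩
    rw [mem_sphere, dist_zero_right] at hf ⊢
    rw [norm_M, hf, Real.one_rpow]
  · rintro g ⟨-, hg⟩
    refine ⟨mem_univ _, ?_⟩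
    rw [mem_sphere, dist_zero_right] at hg ⊢
    have h1 := norm_M hp1 hp (N hp1 hp g)
    rw [M_N, hg] at h1
    have h2 : ‖N hp1 hp g‖ = (‖N hp1 hp g‖ ^ p.toReal) ^ (p.toReal)⁻¹ := by
      rw [← Real.rpow_mul (norm_nonneg _), mul_inv_cancel₀ hq0.ne', Real.rpow_one]
    rw [h2, ← h1, Real.one_rpow]
  · rw [Metric.uniformContinuousOn_iff]
    intro η hη
    set A : ℝ := p.toReal * (2 ^ p.toReal * (1 + 1)) with hA
    have hA0 : 0 < A := by positivity
    set ε : ℝ := η / (2 * A) with hε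
    have hε0 : 0 < ε := by positivity
    set B : ℝ := p.toReal * (ε⁻¹) ^ (p.toReal - 1) with hB
    have hB0 : 0 < B := by positivity
    refine ⟨(η / (2 * B)) ^ (p.toReal)⁻¹, by positivity, ?_⟩
    rintro f ⟨-, hf⟩ g ⟨-, hg⟩ hfg
    rw [mem_sphere, dist_zero_right] at hf hg
    rw [dist_eq_norm] at hfg ⊢
    have h1 := norm_M_sub hp1 hp f g hε0
    rw [hf, hg, Real.one_rpow] at h1
    have h2 : ‖f - g‖ ^ p.toReal < η / (2 * B) := by
      have := Real.rpow_lt_rpow (norm_nonneg _) hfg hq0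
      rwa [← Real.rpow_mul (by positivity), inv_mul_cancel₀ hq0.ne', Real.rpow_one] at this
    have h3 : p.toReal * (ε * (2 ^ p.toReal * (1 + 1)) +
        (ε⁻¹) ^ (p.toReal - 1) * ‖f - g‖ ^ p.toReal) = ε * A + B * ‖f - g‖ ^ p.toReal := by
      rw [hA, hB]; ring
    rw [h3] at h1
    have h4 : ε * A = η / 2 := by rw [hε]; field_simp
    have h5 : B * ‖f - g‖ ^ p.toReal < B * (η / (2 * B)) := by gcongr
    have h6 : B * (η / (2 * B)) = η / 2 := by field_simp
    linarith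
  · rw [Metric.uniformContinuousOn_iff]
    intro η hη
    refine ⟨η ^ p.toReal / 2 ^ p.toReal, by positivity, ?_⟩
    rintro f - g - hfg
    rw [dist_eq_norm] at hfg ⊢
    have h1 := norm_N_sub hp1 hp f g
    have h2 : 2 ^ p.toReal * ‖f - g‖ < η ^ p.toReal := by
      rw [lt_div_iff₀ (by positivity)] at hfg
      linarith
    exact (Real.rpow_lt_rpow_iff (norm_nonneg _) hη.le hq0).mp (h1.trans_lt h2)

end Pool.Agent.helper32.Mazur
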