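import Pool.Agent.helper32.Path.Half
import Pool.Agent.helper32.Path.Mazur

/-!
# Hilbert spaces and `L_p` spaces
-/

set_option autoImplicit false

open Set MeasureTheory Filter Topology Metric
open scoped ENNReal

namespace Pool.Agent.helper32.Path

/-- real `ℓ₂` -/
abbrev ell2 := lp (fun _ : ℕ => ℝ) 2

section Hilbert

variable {H : Type*} [NormedAddCommGroup H] [InnerProductSpace ℝ H] [CompleteSpace H]

lemma countable_of_orthonormal [TopologicalSpace.SeparableSpace H] {ι : Type*} {v : ι → H}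
    (hv : Orthonormal ℝ v) : Countable ι := by
  rw [← Set.countable_univ_iff]
  refine Set.PairwiseDisjoint.countable_of_isOpen (s := fun i => ball (v i) (1/2)) ?_
    (fun _ _ => isOpen_ball) (fun _ _ => nonempty_ball.mpr (by norm_num))
  intro i _ j _ hij
  simp only [Function.onFun]
  rw [Set.disjoint_left]
  intro x hx hy
  rw [mem_ball] at hx hy
  have h1 : dist (v i) (v j) < 1 := by
    have := dist_triangle_left (v i) (v j) x
    linarith
  have h2 : ‖v i - v j‖ ^ 2 = 2 := by
    rw [norm_sub_sq_real, hv.1 i, hv.1 j, hv.2 hij]; norm_num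
  rw [dist_eq_norm] at h1
  nlinarith [norm_nonneg (v i - v j)]

/-- Infinite-dimensional separable Hilbert spaces are isometric to `ℓ₂`. -/
theorem exists_iso_ell2 [TopologicalSpace.SeparableSpace H] (hinf : ¬ FiniteDimensional ℝ H) :
    Nonempty (H ≃ₗᵢ[ℝ] ell2) := by
  obtain ⟨w, b, hb⟩ := exists_hilbertBasis ℝ H
  have hc : Countable w := countable_of_orthonormal b.orthonormal
  have hi : Infinite w := by
    by_contra hcon
    rw [not_infinite_iff_finite] at hcon
    have := Fintype.ofFinite w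
    exact hinf b.toOrthonormalBasis.toBasis.finiteDimensional_of_finite
  obtain ⟨e⟩ := nonempty_denumerable w
  let f : ℕ ≃ w := (Denumerable.eqv w).symm
  have hv : Orthonormal ℝ (fun n => b (f n)) := b.orthonormal.comp _ f.injective
  have hsp : (⊤ : Submodule ℝ H) ≤ (Submodule.span ℝ (range fun n => b (f n))).topologicalClosure := by
    have : range (fun n => b (f n)) = range b := f.surjective.range_comp b
    rw [this, b.dense_span]
  exact ⟨(HilbertBasis.mk hv hsp).repr⟩

instance : TopologicalSpace.SeparableSpace ell2 := by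
  have b : HilbertBasis ℕ ℝ ell2 := default
  rw [← TopologicalSpace.isSeparable_univ_iff]
  have h1 : TopologicalSpace.IsSeparable ((Submodule.span ℝ (range b) : Submodule ℝ ell2) : Set ell2) :=
    (countable_range b).isSeparable.span
  have h2 := h1.closure
  have h3 := b.dense_span
  have h4 : closure ((Submodule.span ℝ (range b) : Submodule ℝ ell2) : Set ell2) = univ := by
    rw [← Submodule.topologicalClosure_coe, h3]; rfl
  rwa [h4] at h2

lemma not_finiteDimensional_ell2 : ¬ FiniteDimensional ℝ ell2 := by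
  intro h
  have b : HilbertBasis ℕ ℝ ell2 := default
  have h1 := b.orthonormal.linearIndependent
  exact Infinite.not_finite (α := ℕ) (h1.finite)

/-- `ℓ₂` absorbs separable Hilbert spaces. -/
theorem absorb (E : Type*) [NormedAddCommGroup E] [InnerProductSpace ℝ E] [CompleteSpace E]
    [TopologicalSpace.SeparableSpace E] : Nonempty ((E × ell2) ≃L[ℝ] ell2) := by
  have e1 := WithLp.prodContinuousLinearEquiv 2 ℝ E ell2
  have : TopologicalSpace.SeparableSpace (WithLp 2 (E × ell2)) :=
    e1.symm.surjective.denseRange.separableSpace e1.symm.continuous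
  have hinf : ¬ FiniteDimensional ℝ (WithLp 2 (E × ell2)) := by
    intro h
    have h1 : FiniteDimensional ℝ (E × ell2) := e1.toLinearEquiv.finiteDimensional
    have h2 : FiniteDimensional ℝ ell2 :=
      FiniteDimensional.of_surjective (LinearMap.snd ℝ E ell2) LinearMap.snd_surjective
    exact not_finiteDimensional_ell2 h2
  obtain ⟨e2⟩ := exists_iso_ell2 hinf
  exact ⟨e1.symm.trans e2.toContinuousLinearEquiv⟩

end Hilbert

section Special

/-- the integral functional -/
noncomputable def ℓ : L1 →L[ℝ] ℝ :=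
  LinearMap.mkContinuous
    { toFun := fun f => prim f 1
      map_add' := fun f g => prim_add f g one_mem
      map_smul' := fun r f => prim_smul r f one_mem } 1 (fun f => by
        rw [one_mul, Real.norm_eq_abs]; exact abs_prim_one_le f)

lemma ℓ_apply (f : L1) : ℓ f = prim f 1 := rfl

lemma exists_one : ∃ u : L1, ℓ u = 1 := by
  refine ⟨Lp.const 1 μ01 (1:ℝ), ?_⟩
  rw [ℓ_apply, prim, ii_congr (Lp.coeFn_const (p := 1) (μ := μ01) (1:ℝ)) zero_mem one_mem]
  simp

/-- `L₁ × W` has the property when `W` absorbs a line. -/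
theorem SB_L1_prod {W : Type*} [NormedAddCommGroup W] [NormedSpace ℝ W]
    (e : (ℝ × W) ≃L[ℝ] W) : SB (L1 × W) := by
  obtain ⟨u, hu⟩ := exists_one
  let fwd : (ℝ × (L1 × W)) →L[ℝ] (L1 × W) :=
    ((ContinuousLinearMap.fst ℝ L1 W).comp (ContinuousLinearMap.snd ℝ ℝ (L1 × W)) -
      ((ℓ.comp ((ContinuousLinearMap.fst ℝ L1 W).comp (ContinuousLinearMap.snd ℝ ℝ (L1 × W)))
        + ContinuousLinearMap.fst ℝ ℝ (L1 × W)).smulRight u)).prod
      ((e : (ℝ × W) →L[ℝ] W).comp
        ((ℓ.comp ((ContinuousLinearMap.fst ℝ L1 W).comp (ContinuousLinearMap.snd ℝ ℝ (L1 × W)))).prod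
          ((ContinuousLinearMap.snd ℝ L1 W).comp (ContinuousLinearMap.snd ℝ ℝ (L1 × W)))))
  have hfwd : ∀ t f w, fwd (t, (f, w)) = (f - (ℓ f + t) • u, e (ℓ f, w)) := fun t f w => rfl
  let bwd : (L1 × W) →L[ℝ] (ℝ × (L1 × W)) :=
    (-(ℓ.comp (ContinuousLinearMap.fst ℝ L1 W))).prod
      ((ContinuousLinearMap.fst ℝ L1 W +
        (-(ℓ.comp (ContinuousLinearMap.fst ℝ L1 W)) +
          (ContinuousLinearMap.fst ℝ ℝ W).comp ((e.symm : W →L[ℝ] (ℝ × W)).comp
            (ContinuousLinearMap.snd ℝ L1 W))).smulRight u).prod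
        ((ContinuousLinearMap.snd ℝ ℝ W).comp ((e.symm : W →L[ℝ] (ℝ × W)).comp
            (ContinuousLinearMap.snd ℝ L1 W))))
  have hbwd : ∀ g w, bwd (g, w) =
      (-ℓ g, (g + (-ℓ g + (e.symm w).1) • u, (e.symm w).2)) := fun g w => rfl
  let E : (ℝ × (L1 × W)) ≃L[ℝ] (L1 × W) :=
    ContinuousLinearEquiv.equivOfInverse fwd bwd (by
      rintro ⟨t, f, w⟩
      rw [hfwd, hbwd]
      simp only [map_sub, map_smul, hu, ContinuousLinearEquiv.symm_apply_apply, smul_eq_mul,
        mul_one]
      ext1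
      · simp only; ring
      · ext1
        · simp only; module
        · rfl) (by
      rintro ⟨g, w⟩
      rw [hbwd, hfwd]
      simp only [map_add, map_smul, hu, smul_eq_mul, mul_one]
      ext1
      · simp only; module
      · simp only
        rw [show ℓ g + (-ℓ g + (e.symm w).1) = (e.symm w).1 by ring]
        exact e.apply_symm_apply w)
  have hE : ∀ t f w, E (t, (f, w)) = (f - (ℓ f + t) • u, e (ℓ f, w)) := hfwd
  rw [SB_iff]
  have h1 : ConeEquiv (HS (L1 × W)) (Half ×ˢ (univ : Set W)) := by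
    refine ConeEquiv.ofLinear E HS_isCone (by simp [HS]) ?_
    rintro ⟨t, f, w⟩
    rw [hE]
    simp only [HS, Half, mem_ofPred_eq, mem_prod, mem_univ, and_true]
    rw [← ℓ_apply]
    simp only [map_sub, map_smul, hu, smul_eq_mul, mul_one]
    constructor <;> intro h <;> linarith
  have h2 : ConeEquiv (Half ×ˢ (univ : Set W)) ((univ : Set L1) ×ˢ (univ : Set W)) :=
    coneEquiv_half.symm.prod (ConeEquiv.refl _)
  rw [univ_prod_univ] at h2
  exact (h1.trans h2).symm

theorem SB_ell2 : SB ell2 := by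
  obtain ⟨e⟩ := absorb ℝ
  have h1 : SB (L1 × ell2) := SB_L1_prod e
  have h2 : ConeEquiv ((univ : Set (Lp ℝ 2 μ01)) ×ˢ (univ : Set ell2))
      ((univ : Set L1) ×ˢ (univ : Set ell2)) :=
    (Mazur.mazur (μ := μ01) (p := 2) (by norm_num)).prod (ConeEquiv.refl _)
  rw [univ_prod_univ, univ_prod_univ] at h2
  have h3 := h2.symm.sphere
  rw [univ_inter_sphere, univ_inter_sphere] at h3
  have h4 : SB (Lp ℝ 2 μ01 × ell2) := SB_of_sphere_equiv h3 h1
  haveI : Fact ((2 : ℝ≥0∞) ≠ ⊤) := ⟨by norm_num⟩
  haveI : SecondCountableTopology (Lp ℝ 2 μ01) := MeasureTheory.Lp.SecondCountableTopology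
  haveI : TopologicalSpace.SeparableSpace (Lp ℝ 2 μ01) := inferInstance
  obtain ⟨e'⟩ := absorb (Lp ℝ 2 μ01)
  exact SB_of_iso e' h4

end Special

/-- Infinite-dimensional Hilbert spaces. -/
theorem SB_hilbert {H : Type*} [NormedAddCommGroup H] [InnerProductSpace ℝ H] [CompleteSpace H]
    (hinf : ¬ FiniteDimensional ℝ H) : SB H := by
  obtain ⟨w, b, hb⟩ := exists_hilbertBasis ℝ H
  have hi : Infinite w := by
    by_contra hcon
    rw [not_infinite_iff_finite] at hcon
    have := Fintype.ofFinite w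
    exact hinf b.toOrthonormalBasis.toBasis.finiteDimensional_of_finite
  let f : ℕ ↪ w := Infinite.natEmbedding w
  have hv : Orthonormal ℝ (fun n => b (f n)) := b.orthonormal.comp _ f.injective
  let ι : ell2 →ₗᵢ[ℝ] H := hv.orthogonalFamily.linearIsometry
  have hadj : Function.RightInverse ι.toContinuousLinearMap
      (ContinuousLinearMap.adjoint ι.toContinuousLinearMap) := by
    intro x
    have h1 := (ContinuousLinearMap.norm_map_iff_adjoint_comp_self
      (ι.toContinuousLinearMap)).mp (fun x => ι.norm_map x)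
    exact congrArg (fun T : ell2 →L[ℝ] ell2 => T x) h1
  let e := ContinuousLinearEquiv.equivOfRightInverse
    (ContinuousLinearMap.adjoint ι.toContinuousLinearMap) ι.toContinuousLinearMap hadj
  exact SB_of_iso e.symm (SB_prod SB_ell2)

/-- A space whose unit sphere is uniformly homeomorphic to that of a finite-dimensional space is
finite-dimensional. -/
theorem finiteDimensional_of_coneEquiv {X Z : Type*} [NormedAddCommGroup X] [NormedSpace ℝ X]
    [NormedAddCommGroup Z] [NormedSpace ℝ Z] [FiniteDimensional ℝ Z]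
    (h : ConeEquiv (univ : Set X) (univ : Set Z)) : FiniteDimensional ℝ X := by
  obtain ⟨F, G, h1, h2, h3, h4, h5, h6⟩ := h.ball
  rw [univ_inter] at *
  rw [univ_inter] at *
  have hc : IsCompact (closedBall (0 : Z) 1) := isCompact_closedBall 0 1
  have himg : G '' closedBall (0 : Z) 1 = closedBall (0 : X) 1 := by
    apply subset_antisymm
    · rintro _ ⟨z, hz, rfl⟩; exact h2 hz
    · intro x hx
      exact ⟨F x, h1 hx, h5 x hx⟩
  have : IsCompact (closedBall (0 : X) 1) := by
    rw [← himg]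
    exact hc.image_of_continuousOn h4.continuousOn
  exact FiniteDimensional.of_isCompact_closedBall ℝ (by norm_num : (0:ℝ) < 1) this

/-- Infinite-dimensional `L_p` spaces, `1 ≤ p < ∞`. -/
theorem SB_Lp {Ω : Type*} [MeasurableSpace Ω] {μ : Measure Ω} {p : ℝ≥0∞} [Fact (1 ≤ p)]
    (hp : p ≠ ⊤) (hinf : ¬ FiniteDimensional ℝ (Lp ℝ p μ)) : SB (Lp ℝ p μ) := by
  have h1 : ConeEquiv (univ : Set (Lp ℝ p μ)) (univ : Set (Lp ℝ 2 μ)) :=
    (Mazur.mazur hp).trans (Mazur.mazur (p := 2) (by norm_num)).symm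
  have h2 : ¬ FiniteDimensional ℝ (Lp ℝ 2 μ) := by
    intro h
    exact hinf (finiteDimensional_of_coneEquiv h1)
  have h3 : SB (Lp ℝ 2 μ) := SB_hilbert h2
  have h4 := h1.symm.sphere
  rw [univ_inter_sphere, univ_inter_sphere] at h4
  exact SB_of_sphere_equiv h4 h3

end Pool.Agent.helper32.Path
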