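import Pool.Agent.helper32.Path.UC

/-!
# Uniform liftings of quotient maps

If the quotient map `X → X ⧸ M` has a positively homogeneous right inverse which is uniformly
continuous on the unit ball, then `X` and `M × (X ⧸ M)` are equivalent.  In uniformly convex
Banach spaces every closed subspace has this property.
-/

set_option autoImplicit false

open Set Metric Filter Topology

namespace Pool.Agent.helper32

variable {X : Type*} [NormedAddCommGroup X] [NormedSpace ℝ X]

/-- The quotient map by the closed subspace `M` has a positively homogeneous right inverse which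
is uniformly continuous on the unit ball. -/
def UniformLift (M : Submodule ℝ X) [IsClosed (M : Set X)] : Prop :=
  ∃ s : X ⧸ M → X, (∀ q, M.mkQ (s q) = q) ∧
    (∀ q, ∀ r : ℝ, 0 ≤ r → s (r • q) = r • s q) ∧ UniformContinuousOn s (closedBall 0 1)

theorem norm_mkQ_le (M : Submodule ℝ X) [IsClosed (M : Set X)] (x : X) : ‖M.mkQ x‖ ≤ ‖x‖ :=
  Submodule.Quotient.norm_mk_le M x

theorem coneEquiv_of_uniformLift (M : Submodule ℝ X) [IsClosed (M : Set X)]
    (h : UniformLift M) : ConeEquiv (univ : Set X) (univ : Set (M × (X ⧸ M))) := by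
  obtain ⟨s, h1, h2, h3⟩ := h
  have hmem : ∀ x, x - s (M.mkQ x) ∈ M := by
    intro x
    have : M.mkQ (x - s (M.mkQ x)) = 0 := by rw [map_sub, h1, sub_self]
    exact (Submodule.Quotient.mk_eq_zero M).1 this
  have hker : ∀ m : M, M.mkQ (m : X) = 0 := fun m =>
    (Submodule.Quotient.mk_eq_zero M).2 m.2
  rw [Metric.uniformContinuousOn_iff] at h3
  refine ConeEquiv.ofUC (fun _ _ _ _ => mem_univ _) (fun _ _ _ _ => mem_univ _) (mem_univ _)
    (F := fun x => (⟨x - s (M.mkQ x), hmem x⟩, M.mkQ x)) (G := fun p => (p.1 : X) + s p.2)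
    (fun _ _ => mem_univ _) (fun _ _ => mem_univ _) ?_ ?_ ?_ ?_ ?_ ?_
  · intro x _ r hr
    ext1
    · apply Subtype.ext
      simp only [Prod.smul_mk, Submodule.coe_smul]
      rw [map_smul, h2 _ r hr, smul_sub]
    · simp
  · intro p _ r hr
    simp only [Prod.smul_fst, Prod.smul_snd, Submodule.coe_smul]
    rw [h2 _ r hr, smul_add]
  · rw [univ_inter, Metric.uniformContinuousOn_iff]
    intro ε hε
    obtain ⟨δ, hδ, H⟩ := h3 (ε / 2) (by positivity)
    refine ⟨min δ (ε / 2), by positivity, ?_⟩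
    intro x hx y hy hxy
    rw [lt_min_iff] at hxy
    have hd : dist (M.mkQ x) (M.mkQ y) ≤ dist x y := by
      rw [dist_eq_norm, dist_eq_norm, ← map_sub]
      exact norm_mkQ_le M _
    have hb : ∀ z ∈ closedBall (0 : X) 1, M.mkQ z ∈ closedBall (0 : X ⧸ M) 1 := by
      intro z hz
      rw [mem_closedBall, dist_zero_right] at *
      exact (norm_mkQ_le M z).trans hz
    have h4 := H _ (hb x hx) _ (hb y hy) (hd.trans_lt hxy.1)
    rw [Prod.dist_eq, max_lt_iff]
    constructor
    · rw [Subtype.dist_eq, dist_eq_norm]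
      have e : x - s (M.mkQ x) - (y - s (M.mkQ y)) = (x - y) - (s (M.mkQ x) - s (M.mkQ y)) := by
        abel
      rw [e]
      refine (norm_sub_le _ _).trans_lt ?_
      rw [← dist_eq_norm, ← dist_eq_norm]
      linarith [hxy.2]
    · exact hd.trans_lt (hxy.2.trans (by linarith))
  · rw [univ_inter, Metric.uniformContinuousOn_iff]
    intro ε hε
    obtain ⟨δ, hδ, H⟩ := h3 (ε / 2) (by positivity)
    refine ⟨min δ (ε / 2), by positivity, ?_⟩
    rintro ⟨m, q⟩ hp ⟨m', q'⟩ hp' hxy
    rw [lt_min_iff, Prod.dist_eq, max_lt_iff, max_lt_iff] at hxy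
    simp only at hxy
    rw [mem_closedBall, dist_zero_right, Prod.norm_def, sup_le_iff] at hp hp'
    have h4 := H q (by rw [mem_closedBall, dist_zero_right]; exact hp.2) q'
      (by rw [mem_closedBall, dist_zero_right]; exact hp'.2) hxy.1.2
    simp only
    rw [dist_eq_norm] at h4 ⊢
    have e : (m : X) + s q - ((m' : X) + s q') = ((m : X) - m') + (s q - s q') := by abel
    rw [e]
    refine (norm_add_le _ _).trans_lt ?_
    have h5 : ‖(m : X) - m'‖ < ε / 2 := by
      have := hxy.2.1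
      rwa [Subtype.dist_eq, dist_eq_norm] at this
    linarith
  · intro x _
    simp
  · rintro ⟨m, q⟩ _
    have e : M.mkQ ((m : X) + s q) = q := by rw [map_add, hker, zero_add, h1]
    ext1
    · apply Subtype.ext
      simp only
      rw [e]
      abel
    · exact e

/-- The key estimate in uniformly convex spaces. -/
theorem uniformConvex_key [UniformConvexSpace X] {ε : ℝ} (hε : 0 < ε) :
    ∃ δ, 0 < δ ∧ ∀ r : ℝ, 0 ≤ r → r ≤ 1 → ∀ x y : X, ‖x‖ ≤ r + δ → ‖y‖ ≤ r + δ →
      2 * r ≤ ‖x + y‖ → ‖x - y‖ < ε := by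
  obtain ⟨δ₁, hδ₁, H⟩ := exists_forall_closed_ball_dist_add_le_two_sub X
    (ε := ε / 2) (by positivity)
  set δ := min (min (ε / 8) 1) (δ₁ * ε / 32) with hδ
  have hδ0 : 0 < δ := by positivity
  have hδa : δ ≤ ε / 8 := (min_le_left _ _).trans (min_le_left _ _)
  have hδb : δ ≤ 1 := (min_le_left _ _).trans (min_le_right _ _)
  have hδc : δ ≤ δ₁ * ε / 32 := min_le_right _ _
  refine ⟨δ, hδ0, ?_⟩
  intro r hr hr1 x y hx hy hxy
  by_contra hcon
  push Not at hcon
  rcases le_or_gt r (ε / 4) with h | h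
  · have := norm_sub_le x y
    linarith
  · have hR : 0 < r + δ := by linarith
    have hR2 : r + δ ≤ 2 := by linarith
    have hn : ∀ z : X, ‖(r + δ)⁻¹ • z‖ = ‖z‖ / (r + δ) := by
      intro z
      rw [norm_smul, norm_inv, Real.norm_eq_abs, abs_of_pos hR, inv_mul_eq_div]
    have h1 := H (x := (r + δ)⁻¹ • x) (by rw [hn, div_le_one hR]; exact hx)
      (y := (r + δ)⁻¹ • y) (by rw [hn, div_le_one hR]; exact hy) (by
        rw [← smul_sub, hn, le_div_iff₀ hR]
        nlinarith)
    rw [← smul_add, hn, div_le_iff₀ hR] at h1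
    have h2 : δ₁ * (ε / 4) ≤ δ₁ * (r + δ) := by
      gcongr
      linarith
    nlinarith

/-- In a uniformly convex Banach space every quotient map has a uniform lifting. -/
theorem uniformLift_of_uniformConvex [UniformConvexSpace X] [CompleteSpace X]
    (M : Submodule ℝ X) [IsClosed (M : Set X)] : UniformLift M := by
  -- existence of minimal liftings
  have hle : ∀ x : X, ‖M.mkQ x‖ ≤ ‖x‖ := norm_mkQ_le M
  have hlift : ∀ q : X ⧸ M, ∀ ε : ℝ, 0 < ε → ∃ x : X, M.mkQ x = q ∧ ‖x‖ < ‖q‖ + ε := by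
    intro q ε hε
    obtain ⟨x, hx1, hx2⟩ := Submodule.Quotient.norm_mk_lt q hε
    exact ⟨x, hx1, hx2⟩
  have hex1 : ∀ q : X ⧸ M, ‖q‖ ≤ 1 → ∃ x : X, M.mkQ x = q ∧ ‖x‖ = ‖q‖ := by
    intro q hq
    choose x hx1 hx2 using fun n : ℕ => hlift q (1 / ((n : ℝ) + 1)) (by positivity)
    have hc : CauchySeq x := by
      rw [Metric.cauchySeq_iff]
      intro ε hε
      obtain ⟨δ, hδ, H⟩ := uniformConvex_key (X := X) hε
      obtain ⟨N, hN⟩ := exists_nat_one_div_lt hδ
      refine ⟨N, fun m hm n hn => ?_⟩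
      rw [dist_eq_norm]
      have hb : ∀ k, N ≤ k → ‖x k‖ ≤ ‖q‖ + δ := by
        intro k hk
        have h1 := hx2 k
        have h2 : 1 / ((k : ℝ) + 1) ≤ 1 / ((N : ℝ) + 1) := by
          apply one_div_le_one_div_of_le (by positivity)
          have : (N : ℝ) ≤ k := by exact_mod_cast hk
          linarith
        linarith
      refine H ‖q‖ (norm_nonneg _) hq _ _ (hb m hm) (hb n hn) ?_
      have h1 := hle (x m + x n)
      rw [map_add, hx1, hx1, ← two_smul ℝ q, norm_smul] at h1
      norm_num at h1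
      exact h1
    obtain ⟨x₀, hx₀⟩ := cauchySeq_tendsto_of_complete hc
    refine ⟨x₀, ?_, ?_⟩
    · have hcont : Continuous (fun x : X => M.mkQ x) := by
        have : LipschitzWith 1 (fun x : X => M.mkQ x) := by
          apply LipschitzWith.of_dist_le_mul
          intro a b
          rw [dist_eq_norm, dist_eq_norm, ← map_sub, NNReal.coe_one, one_mul]
          exact hle _
        exact this.continuous
      have h1 := (hcont.tendsto x₀).comp hx₀
      have h2 : ((fun x : X => M.mkQ x) ∘ x) = fun _ => q := by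
        funext n
        exact hx1 n
      rw [h2] at h1
      exact tendsto_nhds_unique h1 tendsto_const_nhds
    · apply le_antisymm
      · have h1 : Tendsto (fun n => ‖x n‖) atTop (𝓝 ‖x₀‖) := hx₀.norm
        have h2 : Tendsto (fun n : ℕ => ‖q‖ + 1 / ((n : ℝ) + 1)) atTop (𝓝 (‖q‖ + 0)) :=
          tendsto_const_nhds.add tendsto_one_div_add_atTop_nhds_zero_nat
        rw [add_zero] at h2
        exact le_of_tendsto_of_tendsto' h1 h2 fun n => (hx2 n).le
      · have hcl : IsClosed {z : X | ‖q‖ ≤ ‖z‖} := isClosed_le continuous_const continuous_norm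
        apply hcl.mem_of_tendsto hx₀
        refine Filter.Eventually.of_forall fun n => ?_
        have := hle (x n)
        rwa [hx1] at this
  have huniq : ∀ x y : X, M.mkQ x = M.mkQ y → ‖x‖ = ‖M.mkQ x‖ → ‖y‖ = ‖M.mkQ y‖ →
      ‖M.mkQ x‖ ≤ 1 → x = y := by
    intro x y hxy hx hy h1
    by_contra hne
    have hpos : 0 < ‖x - y‖ := norm_pos_iff.2 (sub_ne_zero.2 hne)
    obtain ⟨δ, hδ, H⟩ := uniformConvex_key (X := X) hpos
    have h2 := H ‖M.mkQ x‖ (norm_nonneg _) h1 x y (by linarith) (by rw [hy, ← hxy]; linarith) (by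
      have h3 := hle (x + y)
      rw [map_add, ← hxy, ← two_smul ℝ (M.mkQ x), norm_smul] at h3
      norm_num at h3
      exact h3)
    exact lt_irrefl _ h2
  -- minimal liftings on the whole space
  have hex : ∀ q : X ⧸ M, ∃ x : X, M.mkQ x = q ∧ ‖x‖ = ‖q‖ := by
    intro q
    by_cases hq : q = 0
    · exact ⟨0, by simp [hq], by simp [hq]⟩
    have hqp : 0 < ‖q‖ := norm_pos_iff.2 hq
    obtain ⟨x, hx1, hx2⟩ := hex1 (‖q‖⁻¹ • q) (by
      rw [norm_smul, norm_inv, norm_norm, inv_mul_cancel₀ hqp.ne'])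
    refine ⟨‖q‖ • x, ?_, ?_⟩
    · rw [map_smul, hx1, smul_smul, mul_inv_cancel₀ hqp.ne', one_smul]
    · rw [norm_smul, hx2, norm_smul, norm_norm, norm_inv, norm_norm]
      field_simp
  have huniq' : ∀ x y : X, M.mkQ x = M.mkQ y → ‖x‖ = ‖M.mkQ x‖ → ‖y‖ = ‖M.mkQ y‖ → x = y := by
    intro x y hxy hx hy
    by_cases hq : M.mkQ x = 0
    · have h1 : ‖x‖ = 0 := by rw [hx, hq, norm_zero]
      have h2 : ‖y‖ = 0 := by rw [hy, ← hxy, hq, norm_zero]
      rw [norm_eq_zero.1 h1, norm_eq_zero.1 h2]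
    have hqp : 0 < ‖M.mkQ x‖ := norm_pos_iff.2 hq
    set t := ‖M.mkQ x‖⁻¹ with ht
    have ht0 : 0 < t := inv_pos.2 hqp
    have h1 : t • x = t • y := by
      apply huniq
      · rw [map_smul, map_smul, hxy]
      · rw [map_smul, norm_smul, norm_smul, hx]
      · rw [map_smul, norm_smul, norm_smul, hy]
      · rw [map_smul, norm_smul, Real.norm_eq_abs, abs_of_pos ht0, ht, inv_mul_cancel₀ hqp.ne']
    exact smul_right_injective X ht0.ne' h1
  choose s hs1 hs2 using hex
  refine ⟨s, hs1, ?_, ?_⟩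
  · intro q r hr
    apply huniq'
    · rw [hs1, map_smul, hs1]
    · rw [hs1, hs2]
    · rw [map_smul, hs1, norm_smul, norm_smul, hs2]
  · rw [Metric.uniformContinuousOn_iff]
    intro ε hε
    obtain ⟨δ, hδ, H⟩ := uniformConvex_key (X := X) (ε := ε / 2) (by positivity)
    refine ⟨min (δ / 3) (ε / 4), by positivity, ?_⟩
    intro q hq q' hq' hqq
    rw [mem_closedBall, dist_zero_right] at hq hq'
    rw [lt_min_iff, dist_eq_norm] at hqq
    -- a small lifting of the difference
    obtain ⟨d, hd1, hd2⟩ := hlift (q - q') (min (δ / 3) (ε / 4)) (by positivity)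
    have hd3 : ‖d‖ ≤ 2 * δ / 3 := by
      have := min_le_left (δ / 3) (ε / 4)
      linarith [hqq.1]
    have hd4 : ‖d‖ ≤ ε / 2 := by
      have := min_le_right (δ / 3) (ε / 4)
      linarith [hqq.2]
    have h1 := H ‖q‖ (norm_nonneg _) hq (s q) (s q' + d) (by rw [hs2]; linarith) (by
        have h2 := norm_add_le (s q') d
        have h3 : ‖q'‖ ≤ ‖q‖ + δ / 3 := by
          have := norm_sub_norm_le q' q
          rw [norm_sub_rev] at this
          linarith [hqq.1]
        rw [hs2] at h2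
        linarith) (by
        have h3 := hle (s q + (s q' + d))
        rw [map_add, map_add, hs1, hs1, hd1, add_sub_cancel, ← two_smul ℝ q, norm_smul] at h3
        norm_num at h3
        exact h3)
    rw [dist_eq_norm]
    have e : s q - s q' = (s q - (s q' + d)) + d := by abel
    rw [e]
    exact (norm_add_le _ _).trans_lt (by linarith)

theorem SB_of_uniformLift (M : Submodule ℝ X) [IsClosed (M : Set X)] (h : UniformLift M)
    (hM : SB M ∨ SB (X ⧸ M)) : SB X := by
  have h1 := coneEquiv_of_uniformLift M h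
  apply SB_of_coneEquiv h1.symm
  rcases hM with h2 | h2
  · exact SB_prod h2
  · exact SB_of_iso (ContinuousLinearEquiv.prodComm ℝ (X ⧸ M) M) (SB_prod h2)

end Pool.Agent.helper32
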