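import Pool.Agent.helper32.SB

/-!
# Homogeneous bi-Lipschitz bijections of cones
-/

set_option autoImplicit false

open Set Metric

namespace Pool.Agent.helper32

variable {X Z : Type*}
  [NormedAddCommGroup X] [NormedSpace ℝ X] [NormedAddCommGroup Z] [NormedSpace ℝ Z]

theorem bilip_aux {K : Set X} {L : Set Z} (hL : IsCone L) (hK0 : (0 : X) ∈ K)
    {F : X → Z} {G : Z → X} (hF : MapsTo F K L)
    (hFh : ∀ x ∈ K, ∀ r : ℝ, 0 ≤ r → F (r • x) = r • F x)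
    (hGh : ∀ z ∈ L, ∀ r : ℝ, 0 ≤ r → G (r • z) = r • G z) {a b : ℝ}
    (hFl : ∀ x ∈ K, ∀ y ∈ K, ‖F x - F y‖ ≤ a * ‖x - y‖)
    (hGl : ∀ x ∈ L, ∀ y ∈ L, ‖G x - G y‖ ≤ b * ‖x - y‖)
    (h1 : ∀ x ∈ K, G (F x) = x) :
    MapsTo (fun x => ‖F x‖⁻¹ • F x) (K ∩ sphere 0 1) (L ∩ sphere 0 1) ∧
    UniformContinuousOn (fun x => ‖F x‖⁻¹ • F x) (K ∩ sphere 0 1) ∧
    ∀ x ∈ K ∩ sphere (0 : X) 1, ‖G (‖F x‖⁻¹ • F x)‖⁻¹ • G (‖F x‖⁻¹ • F x) = x := by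
  have hF0 : F 0 = 0 := by
    have := hFh 0 hK0 0 le_rfl
    rwa [zero_smul, zero_smul] at this
  have hL0 : (0 : Z) ∈ L := by rw [← hF0]; exact hF hK0
  have hG0 : G 0 = 0 := by
    have := hGh 0 hL0 0 le_rfl
    rwa [zero_smul, zero_smul] at this
  have hne : ∀ x ∈ K ∩ sphere (0 : X) 1, F x ≠ 0 := by
    rintro x ⟨hx, hx1⟩ h0
    have := h1 x hx
    rw [h0, hG0] at this
    rw [← this] at hx1
    simp at hx1
  have hlow : ∀ x ∈ K ∩ sphere (0 : X) 1, 1 ≤ b * ‖F x‖ := by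
    rintro x ⟨hx, hx1⟩
    have h3 := hGl (F x) (hF hx) 0 hL0
    rw [h1 x hx, hG0, sub_zero, sub_zero] at h3
    have : ‖x‖ = 1 := by simpa using hx1
    rwa [this] at h3
  refine ⟨?_, ?_, ?_⟩
  · intro x hx
    refine ⟨hL _ (hF hx.1) _ (by positivity), ?_⟩
    simpa using norm_normalize (hne x hx)
  · refine uc_of_lip (2 * a * b) ?_
    intro x hx y hy
    rw [dist_eq_norm]
    refine (norm_normalize_sub_le (hne x hx) (hne y hy)).trans ?_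
    have hp : 0 < ‖F x‖ := norm_pos_iff.2 (hne x hx)
    have h3 := hFl x hx.1 y hy.1
    have h4 := hlow x hx
    rw [div_le_iff₀ hp, dist_eq_norm]
    have h5 : 0 ≤ a * ‖x - y‖ := (norm_nonneg _).trans h3
    calc 2 * ‖F x - F y‖ ≤ 2 * (a * ‖x - y‖) * 1 := by linarith
      _ ≤ 2 * (a * ‖x - y‖) * (b * ‖F x‖) := by gcongr
      _ = 2 * a * b * ‖x - y‖ * ‖F x‖ := by ring
  · intro x hx
    have hp : 0 < ‖F x‖ := norm_pos_iff.2 (hne x hx)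
    have hx1 : ‖x‖ = 1 := by simpa using hx.2
    rw [hGh _ (hF hx.1) _ (by positivity), h1 x hx.1, norm_smul, norm_inv, norm_norm, hx1, mul_one,
      inv_inv, smul_smul, mul_inv_cancel₀ hp.ne', one_smul]

theorem ConeEquiv.ofBilip {K : Set X} {L : Set Z} (hK : IsCone K) (hL : IsCone L)
    (hK0 : (0 : X) ∈ K) {F : X → Z} {G : Z → X} (hF : MapsTo F K L) (hG : MapsTo G L K)
    (hFh : ∀ x ∈ K, ∀ r : ℝ, 0 ≤ r → F (r • x) = r • F x)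
    (hGh : ∀ z ∈ L, ∀ r : ℝ, 0 ≤ r → G (r • z) = r • G z) (a b : ℝ)
    (hFl : ∀ x ∈ K, ∀ y ∈ K, ‖F x - F y‖ ≤ a * ‖x - y‖)
    (hGl : ∀ x ∈ L, ∀ y ∈ L, ‖G x - G y‖ ≤ b * ‖x - y‖)
    (h1 : ∀ x ∈ K, G (F x) = x) (h2 : ∀ z ∈ L, F (G z) = z) : ConeEquiv K L := by
  have hF0 : F 0 = 0 := by
    have := hFh 0 hK0 0 le_rfl
    rwa [zero_smul, zero_smul] at this
  have hL0 : (0 : Z) ∈ L := by rw [← hF0]; exact hF hK0
  obtain ⟨a1, a2, a3⟩ := bilip_aux hL hK0 hF hFh hGh hFl hGl h1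
  obtain ⟨b1, b2, b3⟩ := bilip_aux hK hL0 hG hGh hFh hGl hFl h2
  exact ConeEquiv.ofSphere hK hL hK0 hL0 ⟨_, _, a1, b1, a2, b2, a3, b3⟩

/-- Linear homeomorphisms. -/
theorem ConeEquiv.ofLinear {K : Set X} {L : Set Z} (e : X ≃L[ℝ] Z) (hK : IsCone K)
    (hK0 : (0 : X) ∈ K) (h : ∀ x, x ∈ K ↔ e x ∈ L) : ConeEquiv K L := by
  have hL : IsCone L := by
    intro z hz r hr
    have h1 : e.symm z ∈ K := (h _).2 (by simpa using hz)
    have h2 := (h _).1 (hK _ h1 r hr)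
    simpa using h2
  refine ConeEquiv.ofBilip hK hL hK0 (F := e) (G := e.symm) (fun x hx => (h x).1 hx)
    (fun z hz => (h _).2 (by simpa using hz)) (fun x _ r _ => by simp) (fun x _ r _ => by simp)
    ‖(e : X →L[ℝ] Z)‖ ‖(e.symm : Z →L[ℝ] X)‖ ?_ ?_ (fun x _ => by simp) (fun x _ => by simp)
  · intro x _ y _
    rw [← map_sub]
    exact ContinuousLinearMap.le_opNorm (e : X →L[ℝ] Z) (x - y)
  · intro x _ y _
    rw [← map_sub]
    exact ContinuousLinearMap.le_opNorm (e.symm : Z →L[ℝ] X) (x - y)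

end Pool.Agent.helper32
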