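import Pool.Agent.helper32.Path.L1
import Pool.Agent.helper32.Path.Bilip

/-!
# `L₁(0, 1)` is equivalent to a half space of itself
-/

set_option autoImplicit false

open Set MeasureTheory Filter Topology

namespace Pool.Agent.helper32.Path

lemma exists_mx (f : L1) : ∃ m : L1, ∀ t ∈ Icc (0:ℝ) 1, prim m t = RM 0 (prim f) t :=
  exists_prim (RM_zero (cont_prim f) (by simp)) f fun u v hu huv hv =>
    RM_incr_le (cont_prim f) (abs_prim_sub_le f) hu huv hv

/-- density of the running maximum -/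
noncomputable def mx (f : L1) : L1 := (exists_mx f).choose

lemma prim_mx (f : L1) {t : ℝ} (ht : t ∈ Icc (0:ℝ) 1) : prim (mx f) t = RM 0 (prim f) t :=
  (exists_mx f).choose_spec t ht

lemma cont_RM (f : L1) : ContinuousOn (RM 0 (prim f)) (Icc 0 1) :=
  (cont_prim (mx f)).congr fun _ ht => (prim_mx f ht).symm

/-- the image of the transform -/
def D : Set (L1 × ℝ) :=
  {p | (∀ t ∈ Icc (0:ℝ) 1, prim p.1 t ≤ 0) ∧ 0 ≤ p.2 ∧ p.2 ≤ -prim p.1 1}

/-- the backward running minimum -/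
noncomputable def Bk (h : L1) (μ : ℝ) (t : ℝ) : ℝ := -RM (-μ) (rv (prim h)) (1 - t)

lemma cont_rv_prim (h : L1) : ContinuousOn (rv (prim h)) (Icc 0 1) := continuousOn_rv (cont_prim h)

lemma rv_incr (h : L1) (u v : ℝ) (hu : 0 ≤ u) (huv : u ≤ v) (hv : v ≤ 1) :
    |rv (prim h) v - rv (prim h) u| ≤ (-nrm h (1 - v)) - (-nrm h (1 - u)) := by
  have := abs_prim_sub_le h (1 - v) (1 - u) (by linarith) (by linarith) (by linarith)
  rw [abs_sub_comm]
  simp only [rv]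
  linarith

lemma exists_bk {h : L1} {μ : ℝ} (hp : (h, μ) ∈ D) :
    ∃ b : L1, ∀ t ∈ Icc (0:ℝ) 1, prim b t = Bk h μ t := by
  obtain ⟨h1, h2, h3⟩ := hp
  simp only at h1 h2 h3
  apply exists_prim _ h
  · intro u v hu huv hv
    have := RM_incr_le (c := -μ) (cont_rv_prim h) (V := fun t => -nrm h (1 - t)) (rv_incr h)
      (s := 1 - v) (t := 1 - u) (by linarith) (by linarith) (by linarith)
    simp only [sub_sub_cancel] at this
    simp only [Bk]
    rw [abs_sub_comm] at this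
    have e : -RM (-μ) (rv (prim h)) (1 - v) - -RM (-μ) (rv (prim h)) (1 - u) =
      -(RM (-μ) (rv (prim h)) (1 - v) - RM (-μ) (rv (prim h)) (1 - u)) := by ring
    rw [e, abs_neg]
    linarith
  · simp only [Bk, sub_zero, neg_eq_zero]
    apply le_antisymm
    · apply RM_le (cont_rv_prim h) one_mem (by linarith)
      intro u hu
      exact h1 _ (rv_mem hu)
    · have := le_RM (c := -μ) (cont_rv_prim h) one_mem one_mem
      simpa [rv] using this

open Classical in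
/-- density of the backward running minimum -/
noncomputable def bk (p : L1 × ℝ) : L1 :=
  if h : ∃ b : L1, ∀ t ∈ Icc (0:ℝ) 1, prim b t = Bk p.1 p.2 t then h.choose else 0

lemma prim_bk {p : L1 × ℝ} (hp : p ∈ D) {t : ℝ} (ht : t ∈ Icc (0:ℝ) 1) :
    prim (bk p) t = Bk p.1 p.2 t := by
  have hex : ∃ b : L1, ∀ t ∈ Icc (0:ℝ) 1, prim b t = Bk p.1 p.2 t := exists_bk hp
  rw [bk, dif_pos hex]
  exact hex.choose_spec t ht

lemma Bk_one {p : L1 × ℝ} (hp : p ∈ D) : Bk p.1 p.2 1 = p.2 := by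
  rw [Bk, sub_self, RM_zero (cont_rv_prim p.1), neg_neg]
  simp only [rv, sub_zero]
  linarith [hp.2.2]

lemma Bk_zero {p : L1 × ℝ} (hp : p ∈ D) : Bk p.1 p.2 0 = 0 := by
  rw [← prim_bk hp zero_mem, prim_zero_right]

/-- the transform -/
noncomputable def Φ (f : L1) : L1 × ℝ := (f - (2:ℝ) • mx f, RM 0 (prim f) 1)

/-- the inverse transform -/
noncomputable def Ψ (p : L1 × ℝ) : L1 := p.1 + (2:ℝ) • bk p

lemma prim_Φ (f : L1) {t : ℝ} (ht : t ∈ Icc (0:ℝ) 1) :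
    prim (Φ f).1 t = prim f t - 2 * RM 0 (prim f) t := by
  simp only [Φ]
  rw [prim_sub _ _ ht, prim_smul _ _ ht, prim_mx f ht]

lemma Φ_mem (f : L1) : Φ f ∈ D := by
  refine ⟨fun t ht => ?_, ?_, ?_⟩
  · rw [prim_Φ f ht]
    have h1 := le_RM (c := 0) (cont_prim f) ht ⟨ht.1, le_rfl⟩
    have h2 := c_le_RM (c := 0) (σ := prim f) t
    linarith
  · exact c_le_RM 1
  · rw [prim_Φ f one_mem]
    have h1 := le_RM (c := 0) (cont_prim f) one_mem one_mem
    simp only [Φ]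
    linarith

lemma bk_Φ (f : L1) : bk (Φ f) = mx f := by
  apply ext_of_prim
  intro t ht
  rw [prim_bk (Φ_mem f) ht, prim_mx f ht, Bk]
  have h1 : RM (-(Φ f).2) (rv (prim (Φ f).1)) (1 - t) =
      RM (-RM 0 (prim f) 1) (rv (fun u => prim f u - 2 * RM 0 (prim f) u)) (1 - t) := by
    apply RM_congr (rv_mem ht)
    intro u hu
    exact prim_Φ f (rv_mem hu)
  rw [h1, pitman (cont_prim f) (by simp) (cont_RM f) ht, neg_neg]

lemma Ψ_Φ (f : L1) : Ψ (Φ f) = f := by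
  rw [Ψ, bk_Φ]
  simp only [Φ]
  abel

lemma prim_Ψ {p : L1 × ℝ} (hp : p ∈ D) {t : ℝ} (ht : t ∈ Icc (0:ℝ) 1) :
    prim (Ψ p) t = prim p.1 t + 2 * Bk p.1 p.2 t := by
  rw [Ψ, prim_add _ _ ht, prim_smul _ _ ht, prim_bk hp ht]

lemma cont_RM' {p : L1 × ℝ} (hp : p ∈ D) :
    ContinuousOn (RM (-p.2) (rv (prim p.1))) (Icc 0 1) := by
  have h1 : ContinuousOn (fun t => -rv (prim (bk p)) t) (Icc 0 1) :=
    (continuousOn_rv (cont_prim (bk p))).neg
  refine h1.congr fun t ht => ?_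
  simp only [rv]
  rw [prim_bk hp (rv_mem ht), Bk, neg_neg, sub_sub_cancel]

lemma RM_Ψ {p : L1 × ℝ} (hp : p ∈ D) {t : ℝ} (ht : t ∈ Icc (0:ℝ) 1) :
    RM 0 (prim (Ψ p)) t = Bk p.1 p.2 t := by
  have h0 : rv (prim p.1) 0 ≤ -p.2 := by
    simp only [rv, sub_zero]
    linarith [hp.2.2]
  have h1 := pitman (c := -p.2) (cont_rv_prim p.1) h0 (cont_RM' hp) (rv_mem ht)
  rw [sub_sub_cancel] at h1
  have h2 : -RM (-p.2) (rv (prim p.1)) 1 = 0 := by
    have := Bk_zero hp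
    rwa [Bk, sub_zero] at this
  rw [h2] at h1
  have h3 : RM 0 (prim (Ψ p)) t =
      RM 0 (rv (fun u => rv (prim p.1) u - 2 * RM (-p.2) (rv (prim p.1)) u)) t := by
    apply RM_congr ht
    intro u hu
    rw [prim_Ψ hp hu]
    simp only [rv, Bk, sub_sub_cancel]
    ring
  rw [h3, h1, Bk]

lemma Φ_Ψ {p : L1 × ℝ} (hp : p ∈ D) : Φ (Ψ p) = p := by
  have h1 : mx (Ψ p) = bk p := by
    apply ext_of_prim
    intro t ht
    rw [prim_mx _ ht, RM_Ψ hp ht, prim_bk hp ht]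
  ext1
  · simp only [Φ]
    rw [h1, Ψ]; abel
  · simp only [Φ]
    rw [RM_Ψ hp one_mem, Bk_one hp]

lemma abs_prim_one_le (f : L1) : |prim f 1| ≤ ‖f‖ := by
  have := abs_prim_sub_le f 0 1 le_rfl zero_le_one le_rfl
  rwa [prim_zero_right, nrm_zero_right, sub_zero, sub_zero, nrm_one] at this

lemma mx_lip (f g : L1) : ‖mx f - mx g‖ ≤ ‖f - g‖ := by
  have h := norm_le_of_incr (mx f - mx g)
    (V := fun t => nrm (f - g) t -
      |(RM 0 (prim f) t - prim f t) - (RM 0 (prim g) t - prim g t)|) (by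
      intro u v hu huv hv
      have hu' : u ∈ Icc (0:ℝ) 1 := ⟨hu, huv.trans hv⟩
      have hv' : v ∈ Icc (0:ℝ) 1 := ⟨hu.trans huv, hv⟩
      rw [prim_sub _ _ hv', prim_sub _ _ hu', prim_mx f hv', prim_mx g hv', prim_mx f hu',
        prim_mx g hu']
      have := key (c := 0) (d := 0) (cont_prim f) (cont_prim g) (V := nrm (f - g)) (by
        intro x y hx hxy hy
        have h1 := abs_prim_sub_le (f - g) x y hx hxy hy
        rwa [prim_sub _ _ ⟨hx.trans hxy, hy⟩, prim_sub _ _ ⟨hx, hxy.trans hy⟩] at h1) hu huv hv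
      linarith)
  have h1 : |(RM 0 (prim f) 0 - prim f 0) - (RM 0 (prim g) 0 - prim g 0)| = 0 := by
    rw [RM_zero (cont_prim f) (by simp), RM_zero (cont_prim g) (by simp)]
    simp
  simp only [h1, nrm_one, nrm_zero_right] at h
  have := abs_nonneg ((RM 0 (prim f) 1 - prim f 1) - (RM 0 (prim g) 1 - prim g 1))
  linarith

lemma Φ_lip (f g : L1) : ‖Φ f - Φ g‖ ≤ 3 * ‖f - g‖ := by
  have h1 := mx_lip f g
  rw [Prod.norm_def]
  apply max_le
  · have e : (Φ f - Φ g).1 = (f - g) - (2:ℝ) • (mx f - mx g) := by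
      simp only [Φ, Prod.fst_sub]
      module
    rw [e]
    calc ‖(f - g) - (2:ℝ) • (mx f - mx g)‖ ≤ ‖f - g‖ + ‖(2:ℝ) • (mx f - mx g)‖ := norm_sub_le _ _
      _ = ‖f - g‖ + 2 * ‖mx f - mx g‖ := by rw [norm_smul]; norm_num
      _ ≤ 3 * ‖f - g‖ := by linarith
  · have e : (Φ f - Φ g).2 = prim (mx f - mx g) 1 := by
      simp only [Φ, Prod.snd_sub]
      rw [prim_sub _ _ one_mem, prim_mx f one_mem, prim_mx g one_mem]
    rw [e, Real.norm_eq_abs]
    have := abs_prim_one_le (mx f - mx g)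
    have := norm_nonneg (f - g)
    linarith

lemma bk_lip {p q : L1 × ℝ} (hp : p ∈ D) (hq : q ∈ D) :
    ‖bk p - bk q‖ ≤ 2 * ‖p.1 - q.1‖ + |p.2 - q.2| := by
  set γ : ℝ → ℝ := fun t => (RM (-p.2) (rv (prim p.1)) t - rv (prim p.1) t) -
    (RM (-q.2) (rv (prim q.1)) t - rv (prim q.1) t) with hγ
  have h := norm_le_of_incr (bk p - bk q) (V := fun t => nrm (p.1 - q.1) t + |γ (1 - t)|) (by
      intro u v hu huv hv
      have hu' : u ∈ Icc (0:ℝ) 1 := ⟨hu, huv.trans hv⟩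
      have hv' : v ∈ Icc (0:ℝ) 1 := ⟨hu.trans huv, hv⟩
      rw [prim_sub _ _ hv', prim_sub _ _ hu', prim_bk hp hv', prim_bk hq hv', prim_bk hp hu',
        prim_bk hq hu']
      have := key (c := -p.2) (d := -q.2) (cont_rv_prim p.1) (cont_rv_prim q.1)
        (V := fun t => -nrm (p.1 - q.1) (1 - t)) (by
        intro x y hx hxy hy
        have h1 := rv_incr (p.1 - q.1) x y hx hxy hy
        simp only [rv] at h1 ⊢
        have hy' : 1 - y ∈ Icc (0:ℝ) 1 := rv_mem ⟨hx.trans hxy, hy⟩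
        have hx' : 1 - x ∈ Icc (0:ℝ) 1 := rv_mem ⟨hx, hxy.trans hy⟩
        rwa [prim_sub _ _ hy', prim_sub _ _ hx'] at h1)
        (s := 1 - v) (t := 1 - u) (by linarith) (by linarith) (by linarith)
      simp only [sub_sub_cancel] at this
      simp only [Bk, hγ]
      have e : -RM (-p.2) (rv (prim p.1)) (1 - v) - -RM (-q.2) (rv (prim q.1)) (1 - v) -
          (-RM (-p.2) (rv (prim p.1)) (1 - u) - -RM (-q.2) (rv (prim q.1)) (1 - u)) =
          (RM (-p.2) (rv (prim p.1)) (1 - u) - RM (-q.2) (rv (prim q.1)) (1 - u)) -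
          (RM (-p.2) (rv (prim p.1)) (1 - v) - RM (-q.2) (rv (prim q.1)) (1 - v)) := by ring
      rw [e]
      linarith)
  simp only [nrm_one, nrm_zero_right, sub_self, sub_zero, zero_add] at h
  have h1 : γ 0 = -(prim (p.1 - q.1) 1) - (p.2 - q.2) := by
    have hp0 : rv (prim p.1) 0 ≤ -p.2 := by
      simp only [rv, sub_zero]; linarith [hp.2.2]
    have hq0 : rv (prim q.1) 0 ≤ -q.2 := by
      simp only [rv, sub_zero]; linarith [hq.2.2]
    simp only [hγ]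
    rw [RM_zero (cont_rv_prim p.1) hp0, RM_zero (cont_rv_prim q.1) hq0, prim_sub _ _ one_mem]
    simp only [rv, sub_zero]
    ring
  have h2 : |γ 0| ≤ ‖p.1 - q.1‖ + |p.2 - q.2| := by
    rw [h1]
    refine (abs_sub _ _).trans ?_
    rw [abs_neg]
    have := abs_prim_one_le (p.1 - q.1)
    linarith
  have := abs_nonneg (γ 1)
  linarith

lemma Ψ_lip {p q : L1 × ℝ} (hp : p ∈ D) (hq : q ∈ D) : ‖Ψ p - Ψ q‖ ≤ 7 * ‖p - q‖ := by
  have h1 := bk_lip hp hq
  have h2 : ‖p.1 - q.1‖ ≤ ‖p - q‖ := norm_fst_le (p - q)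
  have h3 : |p.2 - q.2| ≤ ‖p - q‖ := norm_snd_le (p - q)
  have e : Ψ p - Ψ q = (p.1 - q.1) + (2:ℝ) • (bk p - bk q) := by
    simp only [Ψ]; module
  rw [e]
  calc _ ≤ ‖p.1 - q.1‖ + ‖(2:ℝ) • (bk p - bk q)‖ := norm_add_le _ _
    _ = ‖p.1 - q.1‖ + 2 * ‖bk p - bk q‖ := by rw [norm_smul]; norm_num
    _ ≤ 7 * ‖p - q‖ := by linarith

lemma mx_smul (f : L1) {r : ℝ} (hr : 0 ≤ r) : mx (r • f) = r • mx f := by
  apply ext_of_prim
  intro t ht
  rw [prim_mx _ ht, prim_smul _ _ ht, prim_mx _ ht, ← RM_smul (cont_prim f) hr ht, mul_zero]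
  exact RM_congr ht fun u hu => prim_smul r f hu

lemma Φ_smul (f : L1) {r : ℝ} (hr : 0 ≤ r) : Φ (r • f) = r • Φ f := by
  ext1
  · simp only [Φ, Prod.smul_fst]
    rw [mx_smul f hr]; module
  · simp only [Φ, Prod.smul_snd, smul_eq_mul]
    rw [← RM_smul (cont_prim f) hr one_mem, mul_zero]
    exact RM_congr one_mem fun u hu => prim_smul r f hu

lemma D_cone : IsCone D := by
  rintro ⟨h, μ⟩ ⟨h1, h2, h3⟩ r hr
  simp only at h1 h2 h3
  refine ⟨fun t ht => ?_, ?_, ?_⟩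
  · simp only [Prod.smul_mk]
    rw [prim_smul r h ht]
    exact mul_nonpos_of_nonneg_of_nonpos hr (h1 t ht)
  · simp only [Prod.smul_mk, smul_eq_mul]; positivity
  · simp only [Prod.smul_mk, smul_eq_mul]
    rw [prim_smul r h one_mem]
    nlinarith

lemma Ψ_smul {p : L1 × ℝ} (hp : p ∈ D) {r : ℝ} (hr : 0 ≤ r) : Ψ (r • p) = r • Ψ p := by
  have h1 : bk (r • p) = r • bk p := by
    apply ext_of_prim
    intro t ht
    rw [prim_bk (D_cone p hp r hr) ht, prim_smul _ _ ht, prim_bk hp ht, Bk, Bk]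
    have h2 : RM (-(r • p).2) (rv (prim (r • p).1)) (1 - t) =
        RM (r * -p.2) (fun u => r * rv (prim p.1) u) (1 - t) := by
      simp only [Prod.smul_snd, Prod.smul_fst, smul_eq_mul, mul_neg]
      apply RM_congr (rv_mem ht)
      intro u hu
      exact prim_smul r p.1 (rv_mem hu)
    rw [h2, RM_smul (cont_rv_prim p.1) hr (rv_mem ht)]
    ring
  simp only [Ψ, h1, Prod.smul_fst]
  module

/-- the half space of functions with nonpositive integral -/
def Half : Set L1 := {f | prim f 1 ≤ 0}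

/-- rescaling of the second coordinate -/
noncomputable def Sc (r : ℝ) (p : L1 × ℝ) : L1 × ℝ := (p.1, r * p.2)

lemma Sc_half_mem {p : L1 × ℝ} (hp : p ∈ D) : Sc (1/2) p ∈ D :=
  ⟨hp.1, by simp only [Sc]; linarith [hp.2.1], by simp only [Sc]; linarith [hp.2.1, hp.2.2]⟩

lemma Sc_smul (r s : ℝ) (p : L1 × ℝ) : Sc s (r • p) = r • Sc s p := by
  ext1
  · rfl
  · simp only [Sc, Prod.smul_snd, smul_eq_mul]; ring

lemma Sc_lip {s a : ℝ} (hs : |s| ≤ a) (ha : 1 ≤ a) (p q : L1 × ℝ) :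
    ‖Sc s p - Sc s q‖ ≤ a * ‖p - q‖ := by
  rw [Prod.norm_def]
  have h2 : ‖p.1 - q.1‖ ≤ ‖p - q‖ := norm_fst_le (p - q)
  have h3 : |p.2 - q.2| ≤ ‖p - q‖ := norm_snd_le (p - q)
  apply max_le
  · simp only [Sc, Prod.fst_sub]
    have := norm_nonneg (p - q)
    nlinarith
  · simp only [Sc, Prod.snd_sub]
    rw [← mul_sub, Real.norm_eq_abs, abs_mul]
    gcongr

/-- the homeomorphism onto the half space -/
theorem coneEquiv_half : ConeEquiv (univ : Set L1) Half := by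
  have hHalf : ∀ f ∈ Half, Sc 2 (Φ f) ∈ D := by
    intro f hf
    have h1 := Φ_mem f
    refine ⟨h1.1, by simp only [Sc]; linarith [h1.2.1], ?_⟩
    simp only [Sc]
    rw [prim_Φ f one_mem]
    have : prim f 1 ≤ 0 := hf
    simp only [Φ]
    linarith
  refine ConeEquiv.ofBilip (fun _ _ _ _ => mem_univ _) ?_ (mem_univ _)
    (F := fun f => Ψ (Sc (1/2) (Φ f))) (G := fun f => Ψ (Sc 2 (Φ f))) ?_ (fun _ _ => mem_univ _)
    ?_ ?_ (7 * (1 * 3)) (7 * (2 * 3)) ?_ ?_ ?_ ?_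
  · intro f hf r hr
    have : prim f 1 ≤ 0 := hf
    simp only [Half, mem_ofPred_eq]
    rw [prim_smul r f one_mem]
    exact mul_nonpos_of_nonneg_of_nonpos hr this
  · intro f _
    simp only [Half, mem_ofPred_eq]
    have h1 := Sc_half_mem (Φ_mem f)
    rw [prim_Ψ h1 one_mem, Bk_one h1]
    have h2 := (Φ_mem f).2.2
    simp only [Sc]
    linarith
  · intro f _ r hr
    rw [Φ_smul f hr, Sc_smul, Ψ_smul (Sc_half_mem (Φ_mem f)) hr]
  · intro f hf r hr
    rw [Φ_smul f hr, Sc_smul, Ψ_smul (hHalf f hf) hr]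
  · intro f _ g _
    calc _ ≤ 7 * ‖Sc (1/2) (Φ f) - Sc (1/2) (Φ g)‖ :=
          Ψ_lip (Sc_half_mem (Φ_mem f)) (Sc_half_mem (Φ_mem g))
      _ ≤ 7 * (1 * ‖Φ f - Φ g‖) := by
          gcongr
          exact Sc_lip (by rw [abs_of_pos] <;> norm_num) le_rfl _ _
      _ ≤ 7 * (1 * (3 * ‖f - g‖)) := by
          gcongr
          exact Φ_lip f g
      _ = 7 * (1 * 3) * ‖f - g‖ := by ring
  · intro f hf g hg
    calc _ ≤ 7 * ‖Sc 2 (Φ f) - Sc 2 (Φ g)‖ := Ψ_lip (hHalf f hf) (hHalf g hg)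
      _ ≤ 7 * (2 * ‖Φ f - Φ g‖) := by
          gcongr
          exact Sc_lip (by rw [abs_of_pos]; norm_num) (by norm_num) _ _
      _ ≤ 7 * (2 * (3 * ‖f - g‖)) := by
          gcongr
          exact Φ_lip f g
      _ = 7 * (2 * 3) * ‖f - g‖ := by ring
  · intro f _
    rw [Φ_Ψ (Sc_half_mem (Φ_mem f))]
    have : Sc 2 (Sc (1/2) (Φ f)) = Φ f := by
      simp only [Sc]
      ext1
      · rfl
      · simp only; ring
    rw [this, Ψ_Φ]
  · intro f hf
    rw [Φ_Ψ (hHalf f hf)]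
    have : Sc (1/2) (Sc 2 (Φ f)) = Φ f := by
      simp only [Sc]
      ext1
      · rfl
      · simp only; ring
    rw [this, Ψ_Φ]

end Pool.Agent.helper32.Path
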