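import Pool.Agent.helper32.Path.RM

/-!
# Integrable functions on `(0, 1]` and their primitives
-/

set_option autoImplicit false

open Set MeasureTheory Filter Topology

namespace Pool.Agent.helper32.Path

/-- Lebesgue measure on `(0, 1]` -/
noncomputable abbrev μ01 : Measure ℝ := volume.restrict (Ioc 0 1)

/-- The space `L₁(0, 1)`. -/
noncomputable abbrev L1 := Lp ℝ 1 μ01

lemma intble (f : L1) : IntegrableOn f (Ioc 0 1) volume := L1.integrable_coeFn f

lemma ii (f : L1) {s t : ℝ} (hs : s ∈ Icc (0:ℝ) 1) (ht : t ∈ Icc (0:ℝ) 1) :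
    IntervalIntegrable f volume s t := by
  rw [intervalIntegrable_iff]
  apply (intble f).mono_set
  exact Ioc_subset_Ioc (le_min hs.1 ht.1) (max_le hs.2 ht.2)

lemma zero_mem : (0:ℝ) ∈ Icc (0:ℝ) 1 := ⟨le_rfl, zero_le_one⟩
lemma one_mem : (1:ℝ) ∈ Icc (0:ℝ) 1 := ⟨zero_le_one, le_rfl⟩

/-- the primitive -/
noncomputable def prim (f : L1) (t : ℝ) : ℝ := ∫ x in (0:ℝ)..t, f x

/-- the primitive of the absolute value -/
noncomputable def nrm (f : L1) (t : ℝ) : ℝ := ∫ x in (0:ℝ)..t, |f x|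

@[simp] lemma prim_zero_right (f : L1) : prim f 0 = 0 := intervalIntegral.integral_same
@[simp] lemma nrm_zero_right (f : L1) : nrm f 0 = 0 := intervalIntegral.integral_same

lemma nrm_one (f : L1) : nrm f 1 = ‖f‖ := by
  rw [L1.norm_eq_integral_norm, nrm, intervalIntegral.integral_of_le zero_le_one]
  rfl

lemma prim_sub_prim (f : L1) {s t : ℝ} (hs : s ∈ Icc (0:ℝ) 1) (ht : t ∈ Icc (0:ℝ) 1) :
    prim f t - prim f s = ∫ x in s..t, f x := by
  rw [prim, prim, intervalIntegral.integral_interval_sub_left (ii f zero_mem ht) (ii f zero_mem hs)]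

lemma nrm_sub_nrm (f : L1) {s t : ℝ} (hs : s ∈ Icc (0:ℝ) 1) (ht : t ∈ Icc (0:ℝ) 1) :
    nrm f t - nrm f s = ∫ x in s..t, |f x| := by
  rw [nrm, nrm, intervalIntegral.integral_interval_sub_left (ii f zero_mem ht).abs
    (ii f zero_mem hs).abs]

lemma abs_prim_sub_le (f : L1) (u v : ℝ) (hu : 0 ≤ u) (huv : u ≤ v) (hv : v ≤ 1) :
    |prim f v - prim f u| ≤ nrm f v - nrm f u := by
  rw [prim_sub_prim f ⟨hu, huv.trans hv⟩ ⟨hu.trans huv, hv⟩,
    nrm_sub_nrm f ⟨hu, huv.trans hv⟩ ⟨hu.trans huv, hv⟩]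
  exact intervalIntegral.abs_integral_le_integral_abs huv

lemma ac_prim (f : L1) : AbsolutelyContinuousOnInterval (prim f) 0 1 :=
  (ii f zero_mem one_mem).absolutelyContinuousOnInterval_intervalIntegral (by simp)

lemma ac_nrm (f : L1) : AbsolutelyContinuousOnInterval (nrm f) 0 1 :=
  (ii f zero_mem one_mem).abs.absolutelyContinuousOnInterval_intervalIntegral (by simp)

lemma cont_prim (f : L1) : ContinuousOn (prim f) (Icc 0 1) := by
  have := (ac_prim f).continuousOn
  rwa [uIcc_of_le zero_le_one] at this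

/-- congruence for interval integrals of functions on `(0, 1]` -/
lemma ii_congr {f g : ℝ → ℝ} (h : f =ᵐ[μ01] g) {s t : ℝ} (hs : s ∈ Icc (0:ℝ) 1)
    (ht : t ∈ Icc (0:ℝ) 1) : ∫ x in s..t, f x = ∫ x in s..t, g x := by
  apply intervalIntegral.integral_congr_ae
  rw [Filter.EventuallyEq, ae_restrict_iff' measurableSet_Ioc] at h
  filter_upwards [h] with x hx hx'
  exact hx (Ioc_subset_Ioc (le_min hs.1 ht.1) (max_le hs.2 ht.2) hx')

lemma prim_sub (f g : L1) {t : ℝ} (ht : t ∈ Icc (0:ℝ) 1) : prim (f - g) t = prim f t - prim g t := by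
  rw [prim, prim, prim, ← intervalIntegral.integral_sub (ii f zero_mem ht) (ii g zero_mem ht)]
  exact ii_congr (Lp.coeFn_sub f g) zero_mem ht

lemma prim_add (f g : L1) {t : ℝ} (ht : t ∈ Icc (0:ℝ) 1) : prim (f + g) t = prim f t + prim g t := by
  rw [prim, prim, prim, ← intervalIntegral.integral_add (ii f zero_mem ht) (ii g zero_mem ht)]
  exact ii_congr (Lp.coeFn_add f g) zero_mem ht

lemma prim_smul (r : ℝ) (f : L1) {t : ℝ} (ht : t ∈ Icc (0:ℝ) 1) :
    prim (r • f) t = r * prim f t := by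
  rw [prim, prim, ← intervalIntegral.integral_const_mul]
  exact ii_congr (Lp.coeFn_smul r f) zero_mem ht

/-- Norm estimate from increments of the primitive. -/
lemma norm_le_of_incr (f : L1) {V : ℝ → ℝ}
    (hV : ∀ u v, 0 ≤ u → u ≤ v → v ≤ 1 → |prim f v - prim f u| ≤ V v - V u) :
    ‖f‖ ≤ V 1 - V 0 := by
  have hmono : MonotoneOn V (Icc 0 1) := by
    intro u hu v hv huv
    have := (abs_nonneg _).trans (hV u v hu.1 huv hv.2)
    linarith
  have hmono' : MonotoneOn V (uIcc 0 1) := by rwa [uIcc_of_le zero_le_one]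
  have h1 : ∀ᵐ x : ℝ, x ∈ Icc (0:ℝ) 1 → DifferentiableWithinAt ℝ V (Icc 0 1) x :=
    hmono.ae_differentiableWithinAt_of_mem
  have h2 := (ii f zero_mem one_mem).ae_hasDerivAt_integral
  have h3 : ∀ᵐ x : ℝ, x ≠ 1 := by simp [ae_iff, measure_singleton]
  have hle : ∀ᵐ x : ℝ, x ∈ Ioc (0:ℝ) 1 → |f x| ≤ deriv V x := by
    filter_upwards [h1, h2, h3] with x hx1 hx2 hx3 hx
    have hx' : x ∈ Ioo (0:ℝ) 1 := ⟨hx.1, lt_of_le_of_ne hx.2 hx3⟩
    have hx'' : x ∈ Icc (0:ℝ) 1 := Ioo_subset_Icc_self hx'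
    have hdV : HasDerivAt V (deriv V x) x :=
      ((hx1 hx'').differentiableAt (Icc_mem_nhds hx'.1 hx'.2)).hasDerivAt
    have hdf : HasDerivAt (prim f) (f x) x :=
      hx2 (by rwa [uIcc_of_le zero_le_one]) 0 (by simp)
    -- compare difference quotients from the right
    have l1 : Tendsto (fun y => |slope (prim f) x y|) (𝓝[>] x) (𝓝 |f x|) :=
      ((hasDerivAt_iff_tendsto_slope.mp hdf).mono_left
        (nhdsWithin_mono x fun y hy => ne_of_gt hy)).abs
    have l2 : Tendsto (fun y => slope V x y) (𝓝[>] x) (𝓝 (deriv V x)) :=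
      (hasDerivAt_iff_tendsto_slope.mp hdV).mono_left
        (nhdsWithin_mono x fun y hy => ne_of_gt hy)
    refine le_of_tendsto_of_tendsto l1 l2 ?_
    have h5 : ∀ᶠ y in 𝓝[>] x, y ∈ Ioo x 1 := Ioo_mem_nhdsGT hx'.2
    filter_upwards [h5] with y hy
    rw [slope_def_field, slope_def_field, abs_div, abs_of_pos (by linarith [hy.1] : 0 < y - x)]
    have h6 : 0 < y - x := by linarith [hy.1]
    gcongr
    exact hV x y hx'.1.le hy.1.le hy.2.le
  have h4 := hmono'.intervalIntegral_deriv_mem_uIcc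
  have h5 : 0 ≤ V 1 - V 0 := by
    have := hmono zero_mem one_mem zero_le_one
    linarith
  rw [uIcc_of_le h5] at h4
  rw [← nrm_one, nrm]
  refine le_trans ?_ h4.2
  apply intervalIntegral.integral_mono_ae_restrict zero_le_one (ii f zero_mem one_mem).abs
    hmono'.intervalIntegrable_deriv
  have h6 : ∀ᵐ x ∂(volume.restrict (Icc (0:ℝ) 1)), x ∈ Ioc (0:ℝ) 1 := by
    rw [ae_restrict_iff' measurableSet_Icc]
    have h7 : ∀ᵐ x : ℝ, x ≠ 0 := by simp [ae_iff, measure_singleton]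
    filter_upwards [h7] with x hx hx'
    exact ⟨lt_of_le_of_ne hx'.1 (Ne.symm hx), hx'.2⟩
  filter_upwards [h6, ae_restrict_of_ae hle] with x hx hx'
  exact hx' hx

lemma ext_of_prim {f g : L1} (h : ∀ t ∈ Icc (0:ℝ) 1, prim f t = prim g t) : f = g := by
  have h1 : ‖f - g‖ ≤ (0:ℝ) - 0 := by
    apply norm_le_of_incr (f - g) (V := fun _ => 0)
    intro u v hu huv hv
    rw [prim_sub f g ⟨hu.trans huv, hv⟩, prim_sub f g ⟨hu, huv.trans hv⟩,
      h v ⟨hu.trans huv, hv⟩, h u ⟨hu, huv.trans hv⟩]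
    simp
  rw [sub_zero] at h1
  exact sub_eq_zero.mp (norm_le_zero_iff.mp h1)

/-- Functions whose increments are dominated by those of a primitive are primitives. -/
lemma exists_prim {M : ℝ → ℝ} (h0 : M 0 = 0) (φ : L1)
    (hM : ∀ u v, 0 ≤ u → u ≤ v → v ≤ 1 → |M v - M u| ≤ nrm φ v - nrm φ u) :
    ∃ m : L1, ∀ t ∈ Icc (0:ℝ) 1, prim m t = M t := by
  have hac : AbsolutelyContinuousOnInterval M 0 1 := by
    refine squeeze_zero' ?_ ?_ (ac_nrm φ)
    · exact Eventually.of_forall fun E => Finset.sum_nonneg fun i _ => dist_nonneg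
    · rw [eventually_inf_principal]
      refine Eventually.of_forall ?_
      rintro ⟨n, I⟩ ⟨hI, -⟩
      apply Finset.sum_le_sum
      intro i hi
      have h1 := hI i hi
      rw [uIcc_of_le zero_le_one] at h1
      obtain ⟨h2, h3⟩ := h1
      rcases le_total (I i).1 (I i).2 with h | h
      · rw [dist_comm, Real.dist_eq, dist_comm, Real.dist_eq]
        exact (hM _ _ h2.1 h h3.2).trans (le_abs_self _)
      · rw [Real.dist_eq, Real.dist_eq]
        exact (hM _ _ h3.1 h h2.2).trans (le_abs_self _)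
  have hint : IntegrableOn (deriv M) (Ioc 0 1) volume := by
    have := hac.intervalIntegrable_deriv
    rwa [intervalIntegrable_iff_integrableOn_Ioc_of_le zero_le_one] at this
  refine ⟨hint.toL1, fun t ht => ?_⟩
  have h1 : AbsolutelyContinuousOnInterval M 0 t := by
    apply hac.mono
    rw [uIcc_of_le zero_le_one, uIcc_of_le ht.1]
    exact Icc_subset_Icc_right ht.2
  rw [prim, ii_congr (Integrable.coeFn_toL1 hint) zero_mem ht, h1.integral_deriv_eq_sub, h0,
    sub_zero]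

end Pool.Agent.helper32.Path
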