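import Mathlib

/-!
# Running maxima of continuous functions on `[0, 1]`
-/

set_option autoImplicit false

open Set

namespace Pool.Agent.helper32.Path

/-- running maximum with initial value `c` -/
noncomputable def RM (c : ℝ) (σ : ℝ → ℝ) (t : ℝ) : ℝ := max c (sSup (σ '' Icc 0 t))

variable {c : ℝ} {σ : ℝ → ℝ}

lemma bdd (hσ : ContinuousOn σ (Icc 0 1)) {t : ℝ} (ht : t ∈ Icc (0:ℝ) 1) :
    BddAbove (σ '' Icc 0 t) :=
  (isCompact_Icc.image_of_continuousOn (hσ.mono (Icc_subset_Icc_right ht.2))).bddAbove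

lemma le_RM (hσ : ContinuousOn σ (Icc 0 1)) {t u : ℝ} (ht : t ∈ Icc (0:ℝ) 1)
    (hu : u ∈ Icc 0 t) : σ u ≤ RM c σ t :=
  (le_csSup (bdd hσ ht) (mem_image_of_mem σ hu)).trans (le_max_right _ _)

lemma c_le_RM (t : ℝ) : c ≤ RM c σ t := le_max_left _ _

lemma RM_le (hσ : ContinuousOn σ (Icc 0 1)) {t b : ℝ} (ht : t ∈ Icc (0:ℝ) 1) (hc : c ≤ b)
    (h : ∀ u ∈ Icc 0 t, σ u ≤ b) : RM c σ t ≤ b := by
  apply max_le hc
  apply csSup_le ((nonempty_Icc.mpr ht.1).image σ)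
  rintro _ ⟨u, hu, rfl⟩
  exact h u hu

/-- The running maximum is either its initial value or attained. -/
lemma RM_attained (hσ : ContinuousOn σ (Icc 0 1)) {t : ℝ} (ht : t ∈ Icc (0:ℝ) 1) :
    RM c σ t = c ∨ ∃ u ∈ Icc 0 t, σ u = RM c σ t := by
  obtain ⟨u, hu, hmax⟩ := isCompact_Icc.exists_isMaxOn (nonempty_Icc.mpr ht.1)
    (hσ.mono (Icc_subset_Icc_right ht.2))
  have h1 : RM c σ t = max c (σ u) := by
    apply le_antisymm
    · exact RM_le hσ ht (le_max_left _ _) fun v hv => (hmax hv).trans (le_max_right _ _)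
    · exact max_le (c_le_RM t) (le_RM hσ ht hu)
  rcases le_total (σ u) c with h | h
  · left; rw [h1, max_eq_left h]
  · right; exact ⟨u, hu, by rw [h1, max_eq_right h]⟩

lemma RM_mono (hσ : ContinuousOn σ (Icc 0 1)) {s t : ℝ} (hs : 0 ≤ s) (hst : s ≤ t) (ht : t ≤ 1) :
    RM c σ s ≤ RM c σ t :=
  RM_le hσ ⟨hs, hst.trans ht⟩ (c_le_RM t)
    fun _ hu => le_RM hσ ⟨hs.trans hst, ht⟩ ⟨hu.1, hu.2.trans hst⟩

lemma RM_zero (hσ : ContinuousOn σ (Icc 0 1)) (hc : σ 0 ≤ c) : RM c σ 0 = c := by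
  apply le_antisymm _ (c_le_RM 0)
  apply RM_le hσ ⟨le_rfl, zero_le_one⟩ le_rfl
  intro u hu
  have : u = 0 := le_antisymm hu.2 hu.1
  rw [this]; exact hc

/-- If the running maximum increases on `[s, t]`, it is attained in `[s, t]`. -/
lemma RM_incr (hσ : ContinuousOn σ (Icc 0 1)) {s t : ℝ} (hs : 0 ≤ s) (hst : s ≤ t) (ht : t ≤ 1)
    (h : RM c σ s < RM c σ t) : ∃ u ∈ Icc s t, σ u = RM c σ t := by
  rcases RM_attained (c := c) hσ ⟨hs.trans hst, ht⟩ with h1 | ⟨u, hu, h1⟩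
  · rw [h1] at h
    exact absurd h (not_lt.mpr (c_le_RM s))
  · refine ⟨u, ⟨?_, hu.2⟩, h1⟩
    by_contra hcon
    push Not at hcon
    have := le_RM (c := c) hσ ⟨hs, hst.trans ht⟩ ⟨hu.1, hcon.le⟩
    linarith

/-- Increments of the running maximum. -/
lemma RM_incr_le (hσ : ContinuousOn σ (Icc 0 1)) {V : ℝ → ℝ}
    (hV : ∀ u v, 0 ≤ u → u ≤ v → v ≤ 1 → |σ v - σ u| ≤ V v - V u)
    {s t : ℝ} (hs : 0 ≤ s) (hst : s ≤ t) (ht : t ≤ 1) :
    |RM c σ t - RM c σ s| ≤ V t - V s := by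
  have hVst : 0 ≤ V t - V s := (abs_nonneg _).trans (hV s t hs hst ht)
  rcases (RM_mono (c := c) hσ hs hst ht).eq_or_lt with h | h
  · rw [h, sub_self, abs_zero]; exact hVst
  · rw [abs_of_pos (by linarith)]
    obtain ⟨u, hu, h1⟩ := RM_incr hσ hs hst ht h
    have h2 := le_RM (c := c) hσ ⟨hs, hst.trans ht⟩ ⟨hs, le_rfl⟩
    have h3 := hV s u hs hu.1 (hu.2.trans ht)
    have h4 := (abs_nonneg _).trans (hV u t (hs.trans hu.1) hu.2 ht)
    have h5 := le_abs_self (σ u - σ s)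
    linarith

/-- The key estimate, one-sided form. -/
lemma key_aux {σ τ : ℝ → ℝ} {c d : ℝ} (hσ : ContinuousOn σ (Icc 0 1))
    (hτ : ContinuousOn τ (Icc 0 1)) {V : ℝ → ℝ}
    (hV : ∀ u v, 0 ≤ u → u ≤ v → v ≤ 1 → |(σ v - τ v) - (σ u - τ u)| ≤ V v - V u)
    {s t : ℝ} (hs : 0 ≤ s) (hst : s ≤ t) (ht : t ≤ 1)
    (hle : RM d τ t - RM d τ s ≤ RM c σ t - RM c σ s) :
    |(RM c σ t - RM d τ t) - (RM c σ s - RM d τ s)| +
      |(RM c σ t - σ t) - (RM d τ t - τ t)| ≤
      |(RM c σ s - σ s) - (RM d τ s - τ s)| + (V t - V s) := by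
  have hmσ := RM_mono (c := c) hσ hs hst ht
  have hmτ := RM_mono (c := d) hτ hs hst ht
  have hVst := hV s t hs hst ht
  rcases hle.eq_or_lt with h | h
  · have e1 : (RM c σ t - RM d τ t) - (RM c σ s - RM d τ s) = 0 := by linarith
    rw [e1, abs_zero, zero_add]
    have e2 : (RM c σ t - σ t) - (RM d τ t - τ t) =
        ((RM c σ s - σ s) - (RM d τ s - τ s)) - ((σ t - τ t) - (σ s - τ s)) := by linarith
    rw [e2]
    exact (abs_sub _ _).trans (by linarith)
  · obtain ⟨u, hu, h1⟩ := RM_incr (c := c) hσ hs hst ht (by linarith)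
    have h2 := le_RM (c := d) hτ ⟨hs.trans hst, ht⟩ ⟨hs.trans hu.1, hu.2⟩
    have h3 := hV s u hs hu.1 (hu.2.trans ht)
    have h4 := hV u t (hs.trans hu.1) hu.2 ht
    rw [abs_of_pos (by linarith)]
    set y := (RM c σ s - σ s) - (RM d τ s - τ s) with hy
    have h5 := le_abs_self y
    have h6 := neg_abs_le y
    have h7 := abs_le.mp h3
    have h8 := abs_le.mp h4
    have h9 := abs_le.mp hVst
    rcases abs_cases ((RM c σ t - σ t) - (RM d τ t - τ t)) with ⟨h10, -⟩ | ⟨h10, -⟩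
    · rw [h10]; linarith
    · rw [h10]; linarith

/-- The key estimate: the difference of two running maxima is controlled, with a telescoping
error term. -/
lemma key {σ τ : ℝ → ℝ} {c d : ℝ} (hσ : ContinuousOn σ (Icc 0 1))
    (hτ : ContinuousOn τ (Icc 0 1)) {V : ℝ → ℝ}
    (hV : ∀ u v, 0 ≤ u → u ≤ v → v ≤ 1 → |(σ v - τ v) - (σ u - τ u)| ≤ V v - V u)
    {s t : ℝ} (hs : 0 ≤ s) (hst : s ≤ t) (ht : t ≤ 1) :
    |(RM c σ t - RM d τ t) - (RM c σ s - RM d τ s)| +
      |(RM c σ t - σ t) - (RM d τ t - τ t)| ≤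
      |(RM c σ s - σ s) - (RM d τ s - τ s)| + (V t - V s) := by
  rcases le_total (RM d τ t - RM d τ s) (RM c σ t - RM c σ s) with h | h
  · exact key_aux hσ hτ hV hs hst ht h
  · have h1 := key_aux (σ := τ) (τ := σ) (c := d) (d := c) hτ hσ (V := V) (fun u v hu huv hv => by
      rw [← abs_neg]
      have := hV u v hu huv hv
      convert this using 2
      ring) hs hst ht h
    have e1 : (RM c σ t - RM d τ t) - (RM c σ s - RM d τ s) =
      -((RM d τ t - RM c σ t) - (RM d τ s - RM c σ s)) := by ring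
    have e2 : (RM c σ t - σ t) - (RM d τ t - τ t) = -((RM d τ t - τ t) - (RM c σ t - σ t)) := by
      ring
    have e3 : (RM c σ s - σ s) - (RM d τ s - τ s) = -((RM d τ s - τ s) - (RM c σ s - σ s)) := by
      ring
    rw [e1, e2, e3, abs_neg, abs_neg, abs_neg]
    exact h1

/-- Homogeneity. -/
lemma RM_smul (hσ : ContinuousOn σ (Icc 0 1)) {r : ℝ} (hr : 0 ≤ r) {t : ℝ}
    (ht : t ∈ Icc (0:ℝ) 1) : RM (r * c) (fun u => r * σ u) t = r * RM c σ t := by
  have hσ' : ContinuousOn (fun u => r * σ u) (Icc 0 1) := hσ.const_mul r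
  apply le_antisymm
  · apply RM_le hσ' ht (mul_le_mul_of_nonneg_left (c_le_RM t) hr)
    intro u hu
    exact mul_le_mul_of_nonneg_left (le_RM hσ ht hu) hr
  · rcases RM_attained (c := c) hσ ht with h | ⟨u, hu, h⟩
    · rw [h]; exact c_le_RM t
    · rw [← h]
      exact le_RM (c := r * c) hσ' ht hu

lemma RM_congr {τ : ℝ → ℝ} {t : ℝ} (ht : t ∈ Icc (0:ℝ) 1)
    (h : ∀ u ∈ Icc (0:ℝ) 1, σ u = τ u) : RM c σ t = RM c τ t := by
  unfold RM
  congr 2
  apply image_congr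
  intro u hu
  exact h u ⟨hu.1, hu.2.trans ht.2⟩

/-- Time reversal. -/
def rv (σ : ℝ → ℝ) (t : ℝ) : ℝ := σ (1 - t)

lemma rv_mem {t : ℝ} (ht : t ∈ Icc (0:ℝ) 1) : 1 - t ∈ Icc (0:ℝ) 1 :=
  ⟨by linarith [ht.2], by linarith [ht.1]⟩

lemma continuousOn_rv (hσ : ContinuousOn σ (Icc 0 1)) : ContinuousOn (rv σ) (Icc 0 1) := by
  apply hσ.comp (by fun_prop)
  intro t ht
  exact rv_mem ht

/-- Pitman's identity: `M` is recovered from `2 M - σ` and `M 1` by a backward running minimum. -/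
lemma pitman (hσ : ContinuousOn σ (Icc 0 1)) (hc : σ 0 ≤ c)
    (hM : ContinuousOn (RM c σ) (Icc 0 1)) {t : ℝ} (ht : t ∈ Icc (0:ℝ) 1) :
    RM (-RM c σ 1) (rv (fun u => σ u - 2 * RM c σ u)) (1 - t) = - RM c σ t := by
  have hZ : ContinuousOn (fun u => σ u - 2 * RM c σ u) (Icc 0 1) := hσ.sub (hM.const_mul 2)
  have hZ' := continuousOn_rv hZ
  apply le_antisymm
  · apply RM_le hZ' (rv_mem ht)
    · have := RM_mono (c := c) hσ ht.1 ht.2 le_rfl
      linarith
    · intro u hu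
      simp only [rv]
      have h1 : t ≤ 1 - u := by linarith [hu.2]
      have h2 : 1 - u ≤ 1 := by linarith [hu.1]
      have h3 := RM_mono (c := c) hσ ht.1 h1 h2
      have h4 := le_RM (c := c) hσ ⟨ht.1.trans h1, h2⟩ ⟨ht.1.trans h1, le_rfl⟩
      linarith
  · rcases (RM_mono (c := c) hσ ht.1 ht.2 le_rfl).eq_or_lt with h | h
    · rw [h]; exact c_le_RM _
    · -- the running maximum increases after `t`
      obtain ⟨w, hw, hw1⟩ := RM_incr hσ ht.1 ht.2 le_rfl h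
      have hwM : RM c σ t < σ w := by rw [hw1]; exact h
      have hst : σ t ≤ RM c σ t := le_RM hσ ht ⟨ht.1, le_rfl⟩
      have hσtw : ContinuousOn σ (Icc t w) := hσ.mono (Icc_subset_Icc ht.1 hw.2)
      set K := {v ∈ Icc t w | σ v = RM c σ t} with hK
      have hKne : K.Nonempty := by
        obtain ⟨v, hv, hv1⟩ := intermediate_value_Icc hw.1 hσtw ⟨hst, hwM.le⟩
        exact ⟨v, hv, hv1⟩
      have hKc : IsCompact K := by
        have : K = Icc t w ∩ σ ⁻¹' {RM c σ t} := rfl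
        rw [this]
        exact isCompact_Icc.of_isClosed_subset
          (hσtw.preimage_isClosed_of_isClosed isClosed_Icc isClosed_singleton) inter_subset_left
      set v := sInf K with hv
      have hvK : v ∈ K := hKc.sInf_mem hKne
      obtain ⟨hv1, hv2⟩ := hvK
      -- before `v` the function stays below
      have hbelow : ∀ x ∈ Icc t v, σ x ≤ RM c σ t := by
        intro x hx
        by_contra hcon
        push Not at hcon
        obtain ⟨y, hy, hy1⟩ := intermediate_value_Icc hx.1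
          (hσ.mono (Icc_subset_Icc ht.1 (hx.2.trans (hv1.2.trans hw.2)))) ⟨hst, hcon.le⟩
        have hyK : y ∈ K := ⟨⟨hy.1, hy.2.trans (hx.2.trans hv1.2)⟩, hy1⟩
        have h5 : v ≤ y := csInf_le hKc.bddBelow hyK
        have h6 : x = v := le_antisymm hx.2 (h5.trans hy.2)
        rw [h6, hv2] at hcon
        exact lt_irrefl _ hcon
      have hv3 : RM c σ v = RM c σ t := by
        apply le_antisymm
        · apply RM_le hσ ⟨ht.1.trans hv1.1, hv1.2.trans hw.2⟩ (c_le_RM t)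
          intro x hx
          rcases le_total x t with hxt | hxt
          · exact le_RM hσ ht ⟨hx.1, hxt⟩
          · exact hbelow x ⟨hxt, hx.2⟩
        · exact RM_mono hσ ht.1 hv1.1 (hv1.2.trans hw.2)
      have h7 : rv (fun u => σ u - 2 * RM c σ u) (1 - v) = - RM c σ t := by
        simp only [rv]
        rw [sub_sub_cancel, hv2, hv3]; ring
      rw [← h7]
      apply le_RM hZ' (rv_mem ht)
      exact ⟨by linarith [hv1.2, hw.2], by linarith [hv1.1]⟩

end Pool.Agent.helper32.Path
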