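import Pool.Agent.helper32.Path.Bilip

/-!
# Positively homogeneous, locally uniformly continuous bijections of cones
-/

set_option autoImplicit false

open Set Metric

namespace Pool.Agent.helper32

variable {X Z : Type*}
  [NormedAddCommGroup X] [NormedSpace ℝ X] [NormedAddCommGroup Z] [NormedSpace ℝ Z]

/-- A positively homogeneous map which is uniformly continuous on the unit ball is bounded. -/
theorem hom_bound {K : Set X} (hK : IsCone K) (hK0 : (0 : X) ∈ K) {F : X → Z}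
    (hFh : ∀ x ∈ K, ∀ r : ℝ, 0 ≤ r → F (r • x) = r • F x)
    (huc : UniformContinuousOn F (K ∩ closedBall 0 1)) :
    ∃ b : ℝ, 0 < b ∧ ∀ x ∈ K, ‖F x‖ ≤ b * ‖x‖ := by
  have hF0 : F 0 = 0 := by
    have := hFh 0 hK0 0 le_rfl
    rwa [zero_smul, zero_smul] at this
  rw [Metric.uniformContinuousOn_iff] at huc
  obtain ⟨δ, hδ, H⟩ := huc 1 one_pos
  set c := min (δ / 2) 1 with hc
  have hc0 : 0 < c := lt_min (by positivity) one_pos
  refine ⟨c⁻¹, by positivity, ?_⟩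
  intro x hx
  by_cases hx0 : x = 0
  · simp [hx0, hF0]
  have hxp : 0 < ‖x‖ := norm_pos_iff.2 hx0
  have hn : ‖(c / ‖x‖) • x‖ = c := by
    rw [norm_smul, Real.norm_eq_abs, abs_of_pos (by positivity)]
    field_simp
  have h1 := H ((c / ‖x‖) • x) ⟨hK x hx _ (by positivity), by
      rw [mem_closedBall, dist_zero_right, hn]; exact min_le_right _ _⟩ 0
    ⟨hK0, by simp⟩ (by
      rw [dist_zero_right, hn]
      exact (min_le_left _ _).trans_lt (by linarith))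
  rw [hF0, dist_zero_right, hFh x hx _ (by positivity), norm_smul, Real.norm_eq_abs,
    abs_of_pos (by positivity)] at h1
  have h2 : c * ‖F x‖ ≤ ‖x‖ := by
    have : c / ‖x‖ * ‖F x‖ = c * ‖F x‖ / ‖x‖ := by ring
    rw [this, div_lt_one hxp] at h1
    exact h1.le
  rw [inv_mul_eq_div, le_div_iff₀ hc0]
  linarith

theorem uc_aux {K : Set X} {L : Set Z} (hK : IsCone K) (hL : IsCone L) (hK0 : (0 : X) ∈ K)
    {F : X → Z} {G : Z → X} (hF : MapsTo F K L)
    (hFh : ∀ x ∈ K, ∀ r : ℝ, 0 ≤ r → F (r • x) = r • F x)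
    (hGh : ∀ z ∈ L, ∀ r : ℝ, 0 ≤ r → G (r • z) = r • G z)
    (hFl : UniformContinuousOn F (K ∩ closedBall 0 1))
    (hGl : UniformContinuousOn G (L ∩ closedBall 0 1))
    (h1 : ∀ x ∈ K, G (F x) = x) :
    MapsTo (fun x => ‖F x‖⁻¹ • F x) (K ∩ sphere 0 1) (L ∩ sphere 0 1) ∧
    UniformContinuousOn (fun x => ‖F x‖⁻¹ • F x) (K ∩ sphere 0 1) ∧
    ∀ x ∈ K ∩ sphere (0 : X) 1, ‖G (‖F x‖⁻¹ • F x)‖⁻¹ • G (‖F x‖⁻¹ • F x) = x := by
  have hF0 : F 0 = 0 := by
    have := hFh 0 hK0 0 le_rfl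
    rwa [zero_smul, zero_smul] at this
  have hL0 : (0 : Z) ∈ L := by rw [← hF0]; exact hF hK0
  have hG0 : G 0 = 0 := by
    have := hGh 0 hL0 0 le_rfl
    rwa [zero_smul, zero_smul] at this
  have hne : ∀ x ∈ K ∩ sphere (0 : X) 1, F x ≠ 0 := by
    rintro x ⟨hx, hx1⟩ h0
    have := h1 x hx
    rw [h0, hG0] at this
    rw [← this] at hx1
    simp at hx1
  obtain ⟨b, hb, hbG⟩ := hom_bound hL hL0 hGh hGl
  have hlow : ∀ x ∈ K ∩ sphere (0 : X) 1, 1 ≤ b * ‖F x‖ := by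
    rintro x ⟨hx, hx1⟩
    have h3 := hbG (F x) (hF hx)
    rw [h1 x hx] at h3
    have : ‖x‖ = 1 := by simpa using hx1
    rwa [this] at h3
  refine ⟨?_, ?_, ?_⟩
  · intro x hx
    refine ⟨hL _ (hF hx.1) _ (by positivity), ?_⟩
    simpa using norm_normalize (hne x hx)
  · rw [Metric.uniformContinuousOn_iff] at hFl ⊢
    intro ε hε
    obtain ⟨δ, hδ, H⟩ := hFl (ε / (2 * b)) (by positivity)
    refine ⟨δ, hδ, ?_⟩
    intro x hx y hy hxy
    have h2 := H x ⟨hx.1, sphere_subset_closedBall hx.2⟩ y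
      ⟨hy.1, sphere_subset_closedBall hy.2⟩ hxy
    rw [dist_eq_norm] at h2 ⊢
    refine (norm_normalize_sub_le (hne x hx) (hne y hy)).trans_lt ?_
    have hp : 0 < ‖F x‖ := norm_pos_iff.2 (hne x hx)
    have h4 := hlow x hx
    rw [div_lt_iff₀ hp]
    have h5 : 2 * b * ‖F x - F y‖ < ε := by
      rw [lt_div_iff₀ (by positivity)] at h2
      linarith
    calc 2 * ‖F x - F y‖ = 2 * ‖F x - F y‖ * 1 := by ring
      _ ≤ 2 * ‖F x - F y‖ * (b * ‖F x‖) := by gcongr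
      _ = (2 * b * ‖F x - F y‖) * ‖F x‖ := by ring
      _ < ε * ‖F x‖ := by gcongr
  · intro x hx
    have hp : 0 < ‖F x‖ := norm_pos_iff.2 (hne x hx)
    have hx1 : ‖x‖ = 1 := by simpa using hx.2
    rw [hGh _ (hF hx.1) _ (by positivity), h1 x hx.1, norm_smul, norm_inv, norm_norm, hx1, mul_one,
      inv_inv, smul_smul, mul_inv_cancel₀ hp.ne', one_smul]

theorem ConeEquiv.ofUC {K : Set X} {L : Set Z} (hK : IsCone K) (hL : IsCone L)
    (hK0 : (0 : X) ∈ K) {F : X → Z} {G : Z → X} (hF : MapsTo F K L) (hG : MapsTo G L K)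
    (hFh : ∀ x ∈ K, ∀ r : ℝ, 0 ≤ r → F (r • x) = r • F x)
    (hGh : ∀ z ∈ L, ∀ r : ℝ, 0 ≤ r → G (r • z) = r • G z)
    (hFl : UniformContinuousOn F (K ∩ closedBall 0 1))
    (hGl : UniformContinuousOn G (L ∩ closedBall 0 1))
    (h1 : ∀ x ∈ K, G (F x) = x) (h2 : ∀ z ∈ L, F (G z) = z) : ConeEquiv K L := by
  have hF0 : F 0 = 0 := by
    have := hFh 0 hK0 0 le_rfl
    rwa [zero_smul, zero_smul] at this
  have hL0 : (0 : Z) ∈ L := by rw [← hF0]; exact hF hK0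
  obtain ⟨a1, a2, a3⟩ := uc_aux hK hL hK0 hF hFh hGh hFl hGl h1
  obtain ⟨b1, b2, b3⟩ := uc_aux hL hK hL0 hG hGh hFh hGl hFl h2
  exact ConeEquiv.ofSphere hK hL hK0 hL0 ⟨_, _, a1, b1, a2, b2, a3, b3⟩

/-- Equivalent cones `X` and `Z`: the property `SB` passes from `X` to `Z`. -/
theorem SB_of_coneEquiv (h : ConeEquiv (univ : Set X) (univ : Set Z)) (hX : SB X) : SB Z := by
  have h4 := h.sphere
  rw [univ_inter_sphere, univ_inter_sphere] at h4
  exact SB_of_sphere_equiv h4 hX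

end Pool.Agent.helper32
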